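import Mathlib

/-! Turán's construction is encoded by an ordered graph. -/

set_option autoImplicit false
open Finset

namespace Pool.Agent.TH865.OG.Low4

/-- edges in terms of the parts -/
def E (i j l : Fin 3) : Bool :=
  (decide (i ≠ j) && decide (j ≠ l) && decide (i ≠ l)) || (decide (i = j) && decide (l = i + 1)) ||
    (decide (i = l) && decide (j = i + 1)) || (decide (j = l) && decide (i = j + 1))

/-- adjacency in terms of the parts -/
def adj (i j : Fin 3) : Bool :=
  (decide (i = 2) && decide (j = 2)) || (decide (i ≠ j) && (decide (i = 1) || decide (j = 1)))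

/-- pattern -/
def pt (f : Fin 3 → Fin 3 → Bool) (i j l : Fin 3) : ℕ :=
  (f i j).toNat + 2 * (f i l).toNat + 4 * (f j l).toNat

theorem E_four : ∀ i j l m, ¬ (E i j l = true ∧ E i j m = true ∧ E i l m = true ∧ E j l m = true) := by
  decide
theorem E_swap1 : ∀ i j l, E i j l = E j i l := by decide
theorem E_swap2 : ∀ i j l, E i j l = E i l j := by decide
theorem E_count : (∑ i : Fin 3, ∑ j : Fin 3, ∑ l : Fin 3, (if E i j l = true then 1 else 0)) = 15 := by
  decide

theorem up1 : ∀ i j l : Fin 3, i ≤ j → j ≤ l →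
    (E i j l = true ∧ (pt adj i j l = 4 ∨ pt adj i j l = 5 ∨ pt adj i j l = 6)) ∨
    (E i j l = false ∧ (pt adj i j l = 0 ∨ pt adj i j l = 3 ∨ pt adj i j l = 7)) := by decide
theorem up2 : ∀ i j l : Fin 3, i ≤ j → j ≤ l →
    (E i j l = true ∧ (pt (fun i j => !adj i j) i j l = 1 ∨ pt (fun i j => !adj i j) i j l = 2 ∨
      pt (fun i j => !adj i j) i j l = 3)) ∨
    (E i j l = false ∧ (pt (fun i j => !adj i j) i j l = 0 ∨ pt (fun i j => !adj i j) i j l = 4 ∨
      pt (fun i j => !adj i j) i j l = 7)) := by decide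
theorem dn1 : ∀ i j l : Fin 3, l ≤ j → j ≤ i →
    (E i j l = true ∧ (pt adj i j l = 1 ∨ pt adj i j l = 3 ∨ pt adj i j l = 5)) ∨
    (E i j l = false ∧ (pt adj i j l = 0 ∨ pt adj i j l = 6 ∨ pt adj i j l = 7)) := by decide
theorem dn2 : ∀ i j l : Fin 3, l ≤ j → j ≤ i →
    (E i j l = true ∧ (pt (fun i j => !adj i j) i j l = 2 ∨ pt (fun i j => !adj i j) i j l = 4 ∨
      pt (fun i j => !adj i j) i j l = 6)) ∨
    (E i j l = false ∧ (pt (fun i j => !adj i j) i j l = 0 ∨ pt (fun i j => !adj i j) i j l = 1 ∨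
      pt (fun i j => !adj i j) i j l = 7)) := by decide
theorem adj_symm : ∀ i j, adj i j = adj j i := by decide

variable {n : ℕ}

/-- the part of a vertex -/
def p (x : Fin n) : Fin 3 :=
  if x.val < n / 3 then 0 else if x.val < 2 * (n / 3) then 1 else 2

theorem p_mono {x y : Fin n} (h : x < y) : p x ≤ p y := by
  unfold p
  have h' : x.val < y.val := h
  split_ifs <;> first | decide | omega

/-- every part has at least `n / 3` vertices -/
def Bal (q : Fin n → Fin 3) : Prop := ∀ g : Fin 3 → ℕ, n / 3 * ∑ i, g i ≤ ∑ x : Fin n, g (q x)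

theorem bal_of {q : Fin n → Fin 3} (h : ∀ i, n / 3 ≤ (univ.filter fun x => q x = i).card) :
    Bal q := by
  intro g
  have h1 : ∑ x : Fin n, g (q x) = ∑ i : Fin 3, (univ.filter fun x => q x = i).card * g i := by
    rw [← sum_fiberwise_of_maps_to (s := univ) (t := univ) (g := q) (fun x _ => mem_univ _)]
    refine sum_congr rfl fun i _ => ?_
    rw [sum_congr rfl (g := fun _ => g i) (fun x hx => by rw [(mem_filter.1 hx).2]), sum_const,
      smul_eq_mul]
  rw [h1, mul_sum]
  exact sum_le_sum fun i _ => Nat.mul_le_mul_right _ (h i)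

theorem card_p (i : Fin 3) : n / 3 ≤ (univ.filter fun x : Fin n => p x = i).card := by
  have hk : 3 * (n / 3) ≤ n := by omega
  have key : ∀ a : ℕ, a + n / 3 ≤ n → (∀ x : Fin n, a ≤ x.val → x.val < a + n / 3 → p x = i) →
      n / 3 ≤ (univ.filter fun x : Fin n => p x = i).card := by
    intro a ha h
    calc n / 3 = (univ : Finset (Fin (n / 3))).card := by rw [card_univ, Fintype.card_fin]
      _ ≤ _ := by
        refine card_le_card_of_injOn (fun y => (⟨a + y.val, by omega⟩ : Fin n)) ?_ ?_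
        · intro y _
          simp only [coe_filter, mem_univ, true_and, Set.mem_ofPred_eq]
          exact h _ (by simp) (by simp)
        · intro y _ z _ hyz
          have := congrArg Fin.val hyz
          simp only at this
          exact Fin.ext (by omega)
  fin_cases i
  · refine key 0 (by omega) fun x _ h => ?_
    show p x = 0
    unfold p
    rw [if_pos (by omega)]
  · refine key (n / 3) (by omega) fun x h h' => ?_
    show p x = 1
    unfold p
    rw [if_neg (by omega), if_pos (by omega)]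
  · refine key (2 * (n / 3)) (by omega) fun x h _ => ?_
    show p x = 2
    unfold p
    rw [if_neg (by omega), if_neg (by omega)]

theorem bal_p : Bal (p : Fin n → Fin 3) := bal_of card_p

/-- parts in the opposite order -/
def p' (x : Fin n) : Fin 3 := 2 - p x

theorem bal_p' : Bal (p' : Fin n → Fin 3) := by
  refine bal_of fun i => ?_
  have : (univ.filter fun x : Fin n => p' x = i) = univ.filter fun x : Fin n => p x = 2 - i := by
    ext x
    simp only [mem_filter, mem_univ, true_and]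
    unfold p'
    generalize p x = u
    revert u i
    decide
  rw [this]
  exact card_p _

theorem p'_anti {x y : Fin n} (h : x < y) : p' y ≤ p' x := by
  have := p_mono h
  unfold p'
  generalize p x = u at *
  generalize p y = v at *
  revert u v
  decide

open scoped Classical

/-- Turan's 3-graph -/
noncomputable def H (q : Fin n → Fin 3) : Finset (Finset (Fin n)) :=
  univ.filter fun s => ∃ x y z, x ≠ y ∧ x ≠ z ∧ y ≠ z ∧ s = {x, y, z} ∧ E (q x) (q y) (q z) = true

variable {q : Fin n → Fin 3}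

theorem H_card {s : Finset (Fin n)} (h : s ∈ H q) : s.card = 3 := by
  unfold H at h
  rw [mem_filter] at h
  obtain ⟨_, x, y, z, hxy, hxz, hyz, rfl, _⟩ := h
  rw [card_insert_of_notMem, card_insert_of_notMem, card_singleton] <;> simp [hxy, hxz, hyz]

theorem mem_H {x y z : Fin n} (hxy : x ≠ y) (hxz : x ≠ z) (hyz : y ≠ z) :
    ({x, y, z} : Finset (Fin n)) ∈ H q ↔ E (q x) (q y) (q z) = true := by
  unfold H
  rw [mem_filter]
  constructor
  · rintro ⟨_, a, b, c, hab, hac, hbc, he, h⟩
    have ha : a ∈ ({x, y, z} : Finset (Fin n)) := by rw [he]; simp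
    have hb : b ∈ ({x, y, z} : Finset (Fin n)) := by rw [he]; simp
    have hc : c ∈ ({x, y, z} : Finset (Fin n)) := by rw [he]; simp
    simp only [mem_insert, mem_singleton] at ha hb hc
    have s1 := E_swap1
    have s2 := E_swap2
    rcases ha with rfl | rfl | rfl <;> rcases hb with rfl | rfl | rfl <;>
      rcases hc with rfl | rfl | rfl <;>
      first
        | exact absurd rfl hab
        | exact absurd rfl hac
        | exact absurd rfl hbc
        | exact h
        | (rw [s2]; exact h)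
        | (rw [s1]; exact h)
        | (rw [s1, s2]; exact h)
        | (rw [s2, s1]; exact h)
        | (rw [s1, s2, s1]; exact h)
  · intro h
    exact ⟨mem_univ _, x, y, z, hxy, hxz, hyz, rfl, h⟩

theorem H_free (S : Finset (Fin n)) (hS : S.card = 4) : ∃ s ⊆ S, s.card = 3 ∧ s ∉ H q := by
  by_contra hcon
  push Not at hcon
  obtain ⟨a, S', ha, rfl, hS'⟩ := card_eq_succ.mp hS
  obtain ⟨b, c, d, hbc, hbd, hcd, rfl⟩ := card_eq_three.mp hS'
  simp only [mem_insert, mem_singleton, not_or] at ha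
  obtain ⟨hab, hac, had⟩ := ha
  have key : ∀ x y z : Fin n, x ≠ y → x ≠ z → y ≠ z →
      ({x, y, z} : Finset (Fin n)) ⊆ {a, b, c, d} → E (q x) (q y) (q z) = true := by
    intro x y z hxy hxz hyz hsub
    rw [← mem_H hxy hxz hyz]
    refine hcon _ hsub ?_
    rw [card_insert_of_notMem, card_insert_of_notMem, card_singleton] <;> simp [hxy, hxz, hyz]
  refine E_four (q a) (q b) (q c) (q d) ⟨key a b c hab hac hbc ?_, key a b d hab had hbd ?_,
    key a c d hac had hcd ?_, key b c d hbc hbd hcd ?_⟩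
  all_goals
    intro v hv
    simp only [mem_insert, mem_singleton] at hv ⊢
    tauto

theorem six_ge : (∑ x : Fin n, ∑ y : Fin n, ∑ z : Fin n,
    (if x ≠ y ∧ x ≠ z ∧ y ≠ z ∧ E (q x) (q y) (q z) = true then 1 else 0))
      ≤ 6 * (H q).card := by
  set F : Finset (Fin n × Fin n × Fin n) :=
    univ.filter fun t => t.1 ≠ t.2.1 ∧ t.1 ≠ t.2.2 ∧ t.2.1 ≠ t.2.2 ∧
      E (q t.1) (q t.2.1) (q t.2.2) = true with hF
  have h1 : (∑ x : Fin n, ∑ y : Fin n, ∑ z : Fin n,
      (if x ≠ y ∧ x ≠ z ∧ y ≠ z ∧ E (q x) (q y) (q z) = true then 1 else 0)) = F.card := by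
    rw [hF, card_filter, Fintype.sum_prod_type]
    refine sum_congr rfl fun x _ => ?_
    rw [Fintype.sum_prod_type]
  rw [h1]
  refine card_le_mul_card_image_of_maps_to (f := fun t : Fin n × Fin n × Fin n =>
    ({t.1, t.2.1, t.2.2} : Finset (Fin n))) ?_ 6 ?_
  · intro t ht
    rw [hF, mem_filter] at ht
    obtain ⟨_, g1, g2, g3, g4⟩ := ht
    exact (mem_H g1 g2 g3).mpr g4
  · intro s hs
    obtain ⟨a, b, c, hab, hac, hbc, rfl⟩ := card_eq_three.mp (H_card hs)
    refine le_trans (card_le_card (t := {(a, b, c), (a, c, b), (b, a, c), (b, c, a), (c, a, b),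
      (c, b, a)}) ?_) card_le_six
    rintro ⟨x, y, z⟩ ht
    rw [mem_filter, hF, mem_filter] at ht
    obtain ⟨⟨_, g1, g2, g3, _⟩, g5⟩ := ht
    have hx : x ∈ ({a, b, c} : Finset (Fin n)) := by rw [← g5]; simp
    have hy : y ∈ ({a, b, c} : Finset (Fin n)) := by rw [← g5]; simp
    have hz : z ∈ ({a, b, c} : Finset (Fin n)) := by rw [← g5]; simp
    simp only [mem_insert, mem_singleton] at hx hy hz
    simp only at g1 g2 g3
    rcases hx with rfl | rfl | rfl <;> rcases hy with rfl | rfl | rfl <;>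
      rcases hz with rfl | rfl | rfl <;>
      first
        | exact absurd rfl g1
        | exact absurd rfl g2
        | exact absurd rfl g3
        | simp

theorem H_count (sum_p : Bal q) : 15 * (n / 3) ^ 3 ≤ 6 * (H q).card + 3 * n ^ 2 := by
  have h0 := six_ge (n := n) (q := q)
  have hall : 15 * (n / 3) ^ 3 ≤ (∑ x : Fin n, ∑ y : Fin n, ∑ z : Fin n,
      (if E (q x) (q y) (q z) = true then 1 else 0)) := by
    have e1 : ∀ x y : Fin n, n / 3 * (∑ l, (if E (q x) (q y) l = true then 1 else 0))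
        ≤ ∑ z : Fin n, (if E (q x) (q y) (q z) = true then 1 else 0) := fun x y =>
      sum_p (fun l => if E (q x) (q y) l = true then 1 else 0)
    have e2 : ∀ x : Fin n, n / 3 * (∑ j, n / 3 * ∑ l, (if E (q x) j l = true then 1 else 0))
        ≤ ∑ y : Fin n, n / 3 * ∑ l, (if E (q x) (q y) l = true then 1 else 0) := fun x =>
      sum_p (fun j => n / 3 * ∑ l, (if E (q x) j l = true then 1 else 0))
    have e3 : n / 3 * (∑ i, n / 3 * ∑ j, n / 3 * ∑ l, (if E i j l = true then 1 else 0))
        ≤ ∑ x : Fin n, n / 3 * ∑ j, n / 3 * ∑ l, (if E (q x) j l = true then 1 else 0) :=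
      sum_p (fun i => n / 3 * ∑ j, n / 3 * ∑ l, (if E i j l = true then 1 else 0))
    calc 15 * (n / 3) ^ 3
        = n / 3 * (∑ i, n / 3 * ∑ j, n / 3 * ∑ l, (if E i j l = true then 1 else 0)) := by
          simp only [← mul_sum]
          rw [E_count]
          ring
      _ ≤ _ := e3
      _ ≤ ∑ x : Fin n, ∑ y : Fin n, n / 3 * ∑ l, (if E (q x) (q y) l = true then 1 else 0) :=
          sum_le_sum fun x _ => e2 x
      _ ≤ _ := sum_le_sum fun x _ => sum_le_sum fun y _ => e1 x y
  have hsplit : (∑ x : Fin n, ∑ y : Fin n, ∑ z : Fin n,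
      (if E (q x) (q y) (q z) = true then 1 else 0)) ≤
      (∑ x : Fin n, ∑ y : Fin n, ∑ z : Fin n,
        (if x ≠ y ∧ x ≠ z ∧ y ≠ z ∧ E (q x) (q y) (q z) = true then 1 else 0))
      + (∑ x : Fin n, ∑ y : Fin n, ∑ z : Fin n, (if y = x then 1 else 0))
      + (∑ x : Fin n, ∑ y : Fin n, ∑ z : Fin n, (if z = x then 1 else 0))
      + (∑ x : Fin n, ∑ y : Fin n, ∑ z : Fin n, (if z = y then 1 else 0)) := by
    simp only [← sum_add_distrib]
    refine sum_le_sum fun x _ => sum_le_sum fun y _ => sum_le_sum fun z _ => ?_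
    by_cases h1 : y = x
    · rw [if_pos h1]
      split_ifs <;> omega
    · by_cases h2 : z = x
      · rw [if_pos h2]
        split_ifs <;> omega
      · by_cases h3 : z = y
        · rw [if_pos h3]
          split_ifs <;> omega
        · simp [h1, h2, h3, Ne.symm h1, Ne.symm h2, Ne.symm h3]
  have k1 : (∑ x : Fin n, ∑ y : Fin n, ∑ z : Fin n, (if y = x then 1 else 0)) = n ^ 2 := by
    have : ∀ x : Fin n, (∑ y : Fin n, ∑ z : Fin n, (if y = x then 1 else 0)) = n := fun x => by
      rw [sum_comm]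
      simp
    rw [sum_congr rfl fun x _ => this x]
    simp [pow_two]
  have k2 : (∑ x : Fin n, ∑ y : Fin n, ∑ z : Fin n, (if z = x then 1 else 0)) = n ^ 2 := by
    simp [pow_two]
  have k3 : (∑ x : Fin n, ∑ y : Fin n, ∑ z : Fin n, (if z = y then 1 else 0)) = n ^ 2 := by
    simp [pow_two]
  omega

theorem H_large (hq : Bal q) : 5 / 54 * (n : ℝ) ^ 3 - 2 * (n : ℝ) ^ 2 ≤ ((H q).card : ℝ) := by
  have h := H_count hq
  have h1 : 15 * ((n / 3 : ℕ) : ℝ) ^ 3 ≤ 6 * ((H q).card : ℝ) + 3 * (n : ℝ) ^ 2 := by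
    exact_mod_cast h
  rcases Nat.lt_or_ge n 2 with hn | hn
  · have h2 : (0 : ℝ) ≤ ((H q).card : ℝ) := Nat.cast_nonneg _
    have h3 : n = 0 ∨ n = 1 := by omega
    have h4 : 5 / 54 * (n : ℝ) ^ 3 - 2 * (n : ℝ) ^ 2 ≤ 0 := by
      rcases h3 with h3 | h3 <;> rw [h3] <;> norm_num
    exact le_trans h4 h2
  · have h2 : (n : ℝ) - 2 ≤ 3 * ((n / 3 : ℕ) : ℝ) := by
      have : n ≤ 3 * (n / 3) + 2 := by omega
      have h3 : (n : ℝ) ≤ 3 * ((n / 3 : ℕ) : ℝ) + 2 := by exact_mod_cast this
      linarith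
    have hn2 : (2 : ℝ) ≤ n := by exact_mod_cast hn
    have h3 : ((n : ℝ) - 2) ^ 3 ≤ (3 * ((n / 3 : ℕ) : ℝ)) ^ 3 :=
      pow_le_pow_left₀ (by linarith) h2 3
    nlinarith [sq_nonneg (n : ℝ)]

end Pool.Agent.TH865.OG.Low4
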