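import Pool.Agent.TH865.OG.Kern

/-! From the certificates to 3-graphs encoded by ordered graphs. -/

set_option autoImplicit false
open Finset

namespace Pool.Agent.TH865.OG

def nall : ℕ → (ℕ → Bool) → Bool
  | 0, _ => true
  | (k + 1), f => and (nall k f) (f k)

theorem nall_true {n : ℕ} {f : ℕ → Bool} (h : nall n f = true) : ∀ i < n, f i = true := by
  induction n with
  | zero => intro i hi; omega
  | succ n ih =>
    unfold nall at h
    rw [Bool.and_eq_true] at h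
    intro i hi
    rcases Nat.lt_succ_iff_lt_or_eq.1 hi with h' | rfl
    · exact ih h.1 i h'
    · exact h.2

def ent' (L x : ℕ) : ℕ := Nat.mod (Nat.shiftRight L (Nat.mul 12 x)) 4096

/-- all entries are at most `mx` in absolute value -/
def chkm (L R mx : ℕ) : Bool :=
  nall (Nat.mul 256 R) fun x => and (Nat.ble 2048 (Nat.add (ent' L x) mx))
    (Nat.ble (ent' L x) (Nat.add 2048 mx))

theorem uu_abs {L R mx : ℕ} (h : chkm L R mx = true) {t k i : ℕ} (ht : t < 8) (hk : k < R)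
    (hi : i < 32) : |uu L R t k i| ≤ mx := by
  have hx : 32 * (R * t + k) + i < 256 * R := by
    have h1 : R * t + k < R * 8 := by
      calc R * t + k < R * t + R := by omega
        _ = R * (t + 1) := by ring
        _ ≤ R * 8 := Nat.mul_le_mul_left _ (by omega)
    omega
  have h2 := nall_true h _ hx
  rw [Bool.and_eq_true] at h2
  have h3 := Nat.le_of_ble_eq_true h2.1
  have h4 := Nat.le_of_ble_eq_true h2.2
  simp only [Nat.add_eq] at h3 h4
  have e : ent' L (32 * (R * t + k) + i) = ent L R t k i := rfl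
  rw [e] at h3 h4
  unfold uu
  rw [abs_le]
  constructor
  · have : (2048 : ℤ) ≤ (ent L R t k i : ℤ) + mx := by exact_mod_cast h3
    linarith
  · have : (ent L R t k i : ℤ) ≤ 2048 + mx := by exact_mod_cast h4
    linarith

section
variable {V : Type} [LinearOrder V]

theorem typ_lt {g : V → V → ℕ} (hg : ∀ x y, g x y ≤ 1) (a b c : V) : typ g a b c < 8 := by
  unfold typ
  have := hg a b
  have := hg a c
  have := hg b c
  omega

theorem fl_lt {g : V → V → ℕ} (hg : ∀ x y, g x y ≤ 1) (a b c d : V) : fl g a b c d < 32 := by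
  unfold fl gap
  have := hg a d
  have := hg b d
  have := hg c d
  split_ifs <;> omega

theorem F_bound {g : V → V → ℕ} (hg : ∀ x y, g x y ≤ 1) {L R κ M mx : ℕ}
    (h : chkm L R mx = true) (a b c d d' : V) :
    F g (uu L R) R κ (fun t => (ee M t : ℤ)) a b c d d' ≤ ((mx * mx * R + κ : ℕ) : ℤ) := by
  unfold F
  split_ifs with hab
  · have h2 : ∑ k ∈ range R, uu L R (typ g a b c) k (fl g a b c d) *
        uu L R (typ g a b c) k (fl g a b c d') ≤ ∑ _k ∈ range R, ((mx : ℤ) * mx) := by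
      refine sum_le_sum fun k hk => ?_
      refine le_trans (le_abs_self _) ?_
      rw [abs_mul]
      exact mul_le_mul (uu_abs h (typ_lt hg _ _ _) (mem_range.1 hk) (fl_lt hg _ _ _ _))
        (uu_abs h (typ_lt hg _ _ _) (mem_range.1 hk) (fl_lt hg _ _ _ _)) (abs_nonneg _)
        (by positivity)
    rw [sum_const, card_range, nsmul_eq_mul] at h2
    have h3 : (κ : ℤ) * (ee M (typ g a b c) : ℤ) ≤ κ := by
      have := ee_le M (typ g a b c)
      have h4 : ((ee M (typ g a b c) : ℕ) : ℤ) ≤ 1 := by exact_mod_cast this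
      have h5 : (0 : ℤ) ≤ κ := by positivity
      nlinarith
    push_cast
    linarith
  · positivity

end

section
variable {n : ℕ}

/-- `H` is given by the rule `M` -/
def Enc (M : ℕ) (g : Fin n → Fin n → ℕ) (H : Finset (Finset (Fin n))) : Prop :=
  ∀ a b c, a < b → b < c → (({a, b, c} : Finset (Fin n)) ∈ H ↔ ee M (typ g a b c) = 1)

theorem sorted_triple {s : Finset (Fin n)} (hs : s.card = 3) :
    ∃ a b c : Fin n, a < b ∧ b < c ∧ s = {a, b, c} := by
  obtain ⟨x, y, z, hxy, hxz, hyz, rfl⟩ := card_eq_three.1 hs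
  rcases lt_or_gt_of_ne hxy with h1 | h1 <;> rcases lt_or_gt_of_ne hxz with h2 | h2 <;>
    rcases lt_or_gt_of_ne hyz with h3 | h3
  · exact ⟨x, y, z, h1, h3, rfl⟩
  · exact ⟨x, z, y, h2, h3, by ext v; simp only [mem_insert, mem_singleton]; tauto⟩
  · exact absurd (h1.trans h3) (lt_asymm h2)
  · exact ⟨z, x, y, h2, h1, by ext v; simp only [mem_insert, mem_singleton]; tauto⟩
  · exact ⟨y, x, z, h1, h2, by ext v; simp only [mem_insert, mem_singleton]; tauto⟩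
  · exact absurd (h3.trans h1) (lt_asymm h2)
  · exact ⟨y, z, x, h3, h2, by ext v; simp only [mem_insert, mem_singleton]; tauto⟩
  · exact ⟨z, y, x, h3, h1, by ext v; simp only [mem_insert, mem_singleton]; tauto⟩

theorem card_le_sum {M : ℕ} {g : Fin n → Fin n → ℕ} {H : Finset (Finset (Fin n))}
    (h3 : ∀ e ∈ H, e.card = 3) (hE : Enc M g H) :
    (H.card : ℤ) ≤ ∑ a : Fin n, ∑ b : Fin n, ∑ c : Fin n,
      if a < b ∧ b < c then (ee M (typ g a b c) : ℤ) else 0 := by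
  set P : Finset (Fin n × Fin n × Fin n) := univ.filter fun p =>
    (p.1 < p.2.1 ∧ p.2.1 < p.2.2) ∧ ee M (typ g p.1 p.2.1 p.2.2) = 1 with hP
  have hsub : H ⊆ P.image fun p => ({p.1, p.2.1, p.2.2} : Finset (Fin n)) := by
    intro s hs
    obtain ⟨a, b, c, hab, hbc, rfl⟩ := sorted_triple (h3 s hs)
    rw [mem_image]
    exact ⟨(a, b, c), mem_filter.2 ⟨mem_univ _, ⟨hab, hbc⟩, (hE a b c hab hbc).1 hs⟩, rfl⟩
  have h1 : H.card ≤ P.card := (card_le_card hsub).trans card_image_le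
  have h2 : (P.card : ℤ) = ∑ p : Fin n × Fin n × Fin n,
      if (p.1 < p.2.1 ∧ p.2.1 < p.2.2) ∧ ee M (typ g p.1 p.2.1 p.2.2) = 1 then (1 : ℤ) else 0 := by
    rw [hP, card_filter]
    push_cast
    rfl
  have h4 : (H.card : ℤ) ≤ P.card := by exact_mod_cast h1
  refine h4.trans ?_
  rw [h2]
  simp only [Fintype.sum_prod_type]
  refine sum_le_sum fun a _ => sum_le_sum fun b _ => sum_le_sum fun c _ => ?_
  by_cases h : a < b ∧ b < c
  · rw [if_pos h]
    by_cases h' : ee M (typ g a b c) = 1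
    · rw [if_pos ⟨h, h'⟩, h']; rfl
    · rw [if_neg fun hh => h' hh.2]
      positivity
  · rw [if_neg h, if_neg fun hh => h hh.1]

theorem main_bound {M L R κ X mx : ℕ} {g : Fin n → Fin n → ℕ} (hg : ∀ x y, g x y ≤ 1)
    {H : Finset (Finset (Fin n))} (h3 : ∀ e ∈ H, e.card = 3) (hE : Enc M g H)
    (hm : chkm L R mx = true)
    (hs : ∀ y : Fin 5 → Fin n, StrictMono y →
      leafZ (fun s t => g (y s) (y t)) (uu L R) R κ (fun t => (ee M t : ℤ)) ≤ 2 * X) :
    60 * (κ : ℝ) * (H.card : ℝ) ≤ X * (n : ℝ) ^ 3 + 600 * (mx * mx * R + κ) * (n : ℝ) ^ 2 := by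
  rcases Nat.eq_zero_or_pos n with rfl | hn
  · have : H.card = 0 := by
      rw [card_eq_zero, eq_empty_iff_forall_notMem]
      intro e he
      obtain ⟨a, _⟩ := sorted_triple (h3 e he)
      exact a.elim0
    rw [this]
    norm_num
  have h := main g (uu L R) R κ (fun t => (ee M t : ℤ)) (2 * X) ((mx * mx * R + κ : ℕ) : ℤ)
    (by positivity) (by positivity) hs (F_bound hg hm)
  have h1 := card_le_sum h3 hE
  rw [Fintype.card_fin] at h
  have hκ : (0 : ℤ) ≤ 120 * (κ * (n : ℤ) ^ 2) := by positivity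
  have h2 := mul_le_mul_of_nonneg_left h1 hκ
  have h4 : 120 * ((κ : ℤ) * (n : ℤ) ^ 2) * (H.card : ℤ) ≤
      2 * X * (n : ℤ) ^ 5 + 1200 * ((mx * mx * R + κ : ℕ) : ℤ) * (n : ℤ) ^ 4 := by
    refine le_trans h2 ?_
    refine le_trans (le_of_eq ?_) h
    ring
  have h5 : 120 * ((κ : ℝ) * (n : ℝ) ^ 2) * (H.card : ℝ) ≤
      2 * X * (n : ℝ) ^ 5 + 1200 * ((mx * mx * R + κ : ℕ) : ℝ) * (n : ℝ) ^ 4 := by
    exact_mod_cast h4
  have hn2 : (0 : ℝ) < 2 * (n : ℝ) ^ 2 := by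
    have : (0 : ℝ) < n := by exact_mod_cast hn
    positivity
  refine le_of_mul_le_mul_left ?_ hn2
  push_cast at h5
  calc 2 * (n : ℝ) ^ 2 * (60 * (κ : ℝ) * (H.card : ℝ))
      = 120 * ((κ : ℝ) * (n : ℝ) ^ 2) * (H.card : ℝ) := by ring
    _ ≤ _ := h5
    _ = _ := by ring

/-- no five vertices span all ten triples -/
def K5 (H : Finset (Finset (Fin n))) : Prop :=
  ∀ S : Finset (Fin n), S.card = 5 → ∃ s ⊆ S, s.card = 3 ∧ s ∉ H

theorem in_range {y : Fin 5 → Fin n} (hy : StrictMono y) {s : Finset (Fin n)}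
    (hs : s ⊆ univ.image y) (hc : s.card = 3) :
    ∃ i j k : Fin 5, i < j ∧ j < k ∧ s = {y i, y j, y k} := by
  obtain ⟨a, b, c, hab, hbc, rfl⟩ := sorted_triple hc
  have ha := hs (show a ∈ ({a, b, c} : Finset (Fin n)) by simp)
  have hb := hs (show b ∈ ({a, b, c} : Finset (Fin n)) by simp)
  have hc' := hs (show c ∈ ({a, b, c} : Finset (Fin n)) by simp)
  rw [mem_image] at ha hb hc'
  obtain ⟨i, -, rfl⟩ := ha
  obtain ⟨j, -, rfl⟩ := hb
  obtain ⟨k, -, rfl⟩ := hc'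
  exact ⟨i, j, k, hy.lt_iff_lt.1 hab, hy.lt_iff_lt.1 hbc, rfl⟩

theorem typ_ty (b : Fin 5 → Fin 5 → ℕ) (i j k : Fin 5) :
    typ b i j k = ty (b i j) (b i k) (b j k) := by
  unfold typ ty
  simp only [Nat.add_eq, Nat.mul_eq]
  ring

theorem no5 {M : ℕ} {g : Fin n → Fin n → ℕ} {H : Finset (Finset (Fin n))} (hE : Enc M g H)
    (hK : K5 H) {y : Fin 5 → Fin n} (hy : StrictMono y) :
    bad5 M (g (y 0) (y 1)) (g (y 0) (y 2)) (g (y 0) (y 3)) (g (y 0) (y 4)) (g (y 1) (y 2))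
      (g (y 1) (y 3)) (g (y 1) (y 4)) (g (y 2) (y 3)) (g (y 2) (y 4)) (g (y 3) (y 4)) = false := by
  by_contra hcon
  rw [Bool.not_eq_false] at hcon
  unfold bad5 sum10 at hcon
  have h1 := Nat.eq_of_beq_eq_true hcon
  simp only [Nat.add_eq] at h1
  obtain ⟨s, hs, hs3, hsH⟩ := hK (univ.image y) (by
    rw [card_image_of_injective _ hy.injective, card_univ, Fintype.card_fin])
  obtain ⟨i, j, k, hij, hjk, rfl⟩ := in_range hy hs hs3
  rw [hE _ _ _ (hy hij) (hy hjk)] at hsH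
  have t1 : ∀ i j k : Fin 5, typ g (y i) (y j) (y k)
      = ty (g (y i) (y j)) (g (y i) (y k)) (g (y j) (y k)) := fun i j k =>
    typ_ty (fun s t => g (y s) (y t)) i j k
  have hl := ee_le M
  have a1 := hl (ty (g (y 0) (y 1)) (g (y 0) (y 2)) (g (y 1) (y 2)))
  have a2 := hl (ty (g (y 0) (y 1)) (g (y 0) (y 3)) (g (y 1) (y 3)))
  have a3 := hl (ty (g (y 0) (y 1)) (g (y 0) (y 4)) (g (y 1) (y 4)))
  have a4 := hl (ty (g (y 0) (y 2)) (g (y 0) (y 3)) (g (y 2) (y 3)))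
  have a5 := hl (ty (g (y 0) (y 2)) (g (y 0) (y 4)) (g (y 2) (y 4)))
  have a6 := hl (ty (g (y 0) (y 3)) (g (y 0) (y 4)) (g (y 3) (y 4)))
  have a7 := hl (ty (g (y 1) (y 2)) (g (y 1) (y 3)) (g (y 2) (y 3)))
  have a8 := hl (ty (g (y 1) (y 2)) (g (y 1) (y 4)) (g (y 2) (y 4)))
  have a9 := hl (ty (g (y 1) (y 3)) (g (y 1) (y 4)) (g (y 3) (y 4)))
  have a10 := hl (ty (g (y 2) (y 3)) (g (y 2) (y 4)) (g (y 3) (y 4)))
  rw [t1] at hsH
  have hi : (i : ℕ) < 5 := i.2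
  have hj : (j : ℕ) < 5 := j.2
  have hk : (k : ℕ) < 5 := k.2
  fin_cases i <;> fin_cases j <;> first
    | exact absurd hij (by decide)
    | (fin_cases k <;> first
        | exact absurd hjk (by decide)
        | (apply hsH
           simp only [Fin.mk_one, Fin.zero_eta, Fin.reduceFinMk, Fin.isValue] at *
           omega))

/-- a certificate for `K_5^3` -/
def Cert5 (M : ℕ) : Prop :=
  ∃ L R κ X mx : ℕ, chk bad5 L R κ M X = true ∧ chkm L R mx = true ∧
    Nat.ble 1 κ = true ∧ Nat.ble (Nat.mul 2 X) (Nat.mul 15 κ) = true ∧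
    Nat.ble (Nat.mul (Nat.mul mx mx) R) (Nat.mul 14 κ) = true

theorem bound5 {M : ℕ} (hC : Cert5 M) {g : Fin n → Fin n → ℕ} (hg : ∀ x y, g x y ≤ 1)
    (hgs : ∀ x y, g x y = g y x)
    {H : Finset (Finset (Fin n))} (h3 : ∀ e ∈ H, e.card = 3) (hK : K5 H) (hE : Enc M g H) :
    (H.card : ℝ) ≤ (n : ℝ) ^ 3 / 8 + 150 * (n : ℝ) ^ 2 := by
  obtain ⟨L, R, κ, X, mx, h1, h2, h4, h5, h6⟩ := hC
  have h := main_bound hg h3 hE h2 (X := X) (κ := κ) (fun y hy =>
    chk_sound h1 (fun s t => g (y s) (y t)) ⟨fun _ _ => hg _ _, fun _ _ => hgs _ _⟩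
      (no5 hE hK hy))
  have h4 := Nat.le_of_ble_eq_true h4
  have h5 := Nat.le_of_ble_eq_true h5
  have h6 := Nat.le_of_ble_eq_true h6
  simp only [Nat.mul_eq] at h5 h6
  have k4 : (1 : ℝ) ≤ κ := by exact_mod_cast h4
  have k5 : 2 * (X : ℝ) ≤ 15 * κ := by exact_mod_cast h5
  have k6 : (mx : ℝ) * mx * R ≤ 14 * κ := by exact_mod_cast h6
  have p3 : (0 : ℝ) ≤ (n : ℝ) ^ 3 := by positivity
  have p2 : (0 : ℝ) ≤ (n : ℝ) ^ 2 := by positivity
  have e1 : (X : ℝ) * (n : ℝ) ^ 3 ≤ 15 / 2 * κ * (n : ℝ) ^ 3 :=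
    mul_le_mul_of_nonneg_right (by linarith) p3
  have e2 : 600 * ((mx : ℝ) * mx * R + κ) * (n : ℝ) ^ 2 ≤ 600 * (15 * κ) * (n : ℝ) ^ 2 :=
    mul_le_mul_of_nonneg_right (by linarith) p2
  have e3 : 60 * (κ : ℝ) * (H.card : ℝ) ≤ 60 * (κ : ℝ) * ((n : ℝ) ^ 3 / 8 + 150 * (n : ℝ) ^ 2) := by
    calc 60 * (κ : ℝ) * (H.card : ℝ) ≤ _ := h
      _ ≤ 15 / 2 * κ * (n : ℝ) ^ 3 + 600 * (15 * κ) * (n : ℝ) ^ 2 := add_le_add e1 e2
      _ = _ := by ring
  exact le_of_mul_le_mul_left e3 (by linarith)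

end

end Pool.Agent.TH865.OG
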