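import Pool.Agent.TH865.OG.Bridge

/-! `K_4^3`-free 3-graphs encoded by ordered graphs: from certificates to bounds. -/

set_option autoImplicit false
open Finset

namespace Pool.Agent.TH865.OG

section
variable {n : ℕ}

/-- no four vertices span all four triples -/
def K4 (H : Finset (Finset (Fin n))) : Prop :=
  ∀ S : Finset (Fin n), S.card = 4 → ∃ s ⊆ S, s.card = 3 ∧ s ∉ H

theorem quad_false {M : ℕ} {g : Fin n → Fin n → ℕ} {H : Finset (Finset (Fin n))} (hE : Enc M g H)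
    (hK : K4 H) {w x y z : Fin n} (hwx : w < x) (hxy : x < y) (hyz : y < z) :
    quad M (g w x) (g w y) (g w z) (g x y) (g x z) (g y z) = false := by
  by_contra hcon
  rw [Bool.not_eq_false] at hcon
  unfold quad at hcon
  have h1 := Nat.eq_of_beq_eq_true hcon
  simp only [Nat.add_eq] at h1
  have tt : ∀ a b c : Fin n, typ g a b c = ty (g a b) (g a c) (g b c) := by
    intro a b c
    unfold typ ty
    simp only [Nat.add_eq, Nat.mul_eq]
    ring
  have hl := ee_le M
  have a1 := hl (ty (g w x) (g w y) (g x y))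
  have a2 := hl (ty (g w x) (g w z) (g x z))
  have a3 := hl (ty (g w y) (g w z) (g y z))
  have a4 := hl (ty (g x y) (g x z) (g y z))
  have hcard : ({w, x, y, z} : Finset (Fin n)).card = 4 := by
    have h2 := (hwx.trans hxy).ne
    have h3 := (hwx.trans (hxy.trans hyz)).ne
    have h4 := (hxy.trans hyz).ne
    rw [card_insert_of_notMem, card_insert_of_notMem, card_insert_of_notMem, card_singleton]
    · simpa using hyz.ne
    · simp only [mem_insert, mem_singleton, not_or]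
      exact ⟨hxy.ne, h4⟩
    · simp only [mem_insert, mem_singleton, not_or]
      exact ⟨hwx.ne, h2, h3⟩
  obtain ⟨s, hs, hs3, hsH⟩ := hK {w, x, y, z} hcard
  obtain ⟨a, b, c, hab, hbc, rfl⟩ := sorted_triple hs3
  have ha := hs (show a ∈ ({a, b, c} : Finset (Fin n)) by simp)
  have hb := hs (show b ∈ ({a, b, c} : Finset (Fin n)) by simp)
  have hc := hs (show c ∈ ({a, b, c} : Finset (Fin n)) by simp)
  simp only [mem_insert, mem_singleton] at ha hb hc
  rw [hE _ _ _ hab hbc, tt] at hsH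
  rcases ha with rfl | rfl | rfl | rfl <;> rcases hb with rfl | rfl | rfl | rfl <;>
    first
      | (exfalso; order)
      | (rcases hc with rfl | rfl | rfl | rfl <;>
          first
            | (exfalso; order)
            | omega)

theorem no4 {M : ℕ} {g : Fin n → Fin n → ℕ} {H : Finset (Finset (Fin n))} (hE : Enc M g H)
    (hK : K4 H) {y : Fin 5 → Fin n} (hy : StrictMono y) :
    bad4 M (g (y 0) (y 1)) (g (y 0) (y 2)) (g (y 0) (y 3)) (g (y 0) (y 4)) (g (y 1) (y 2))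
      (g (y 1) (y 3)) (g (y 1) (y 4)) (g (y 2) (y 3)) (g (y 2) (y 4)) (g (y 3) (y 4)) = false := by
  unfold bad4
  rw [quad_false hE hK (hy (by decide)) (hy (by decide)) (hy (by decide)),
    quad_false hE hK (hy (by decide)) (hy (by decide)) (hy (by decide)),
    quad_false hE hK (hy (by decide)) (hy (by decide)) (hy (by decide)),
    quad_false hE hK (hy (by decide)) (hy (by decide)) (hy (by decide)),
    quad_false hE hK (hy (by decide)) (hy (by decide)) (hy (by decide))]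
  rfl

/-- a certificate for `K_4^3` -/
def Cert4 (M : ℕ) : Prop :=
  ∃ L R κ X mx : ℕ, chk bad4 L R κ M X = true ∧ chkm L R mx = true ∧
    Nat.ble 1 κ = true ∧ Nat.ble (Nat.mul 5 X) (Nat.mul 27 κ) = true ∧
    Nat.ble (Nat.mul (Nat.mul mx mx) R) (Nat.mul 14 κ) = true

theorem bound4 {M : ℕ} (hC : Cert4 M) {g : Fin n → Fin n → ℕ} (hg : ∀ x y, g x y ≤ 1)
    (hgs : ∀ x y, g x y = g y x)
    {H : Finset (Finset (Fin n))} (h3 : ∀ e ∈ H, e.card = 3) (hK : K4 H) (hE : Enc M g H) :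
    (H.card : ℝ) ≤ 9 / 100 * (n : ℝ) ^ 3 + 150 * (n : ℝ) ^ 2 := by
  obtain ⟨L, R, κ, X, mx, h1, h2, h4, h5, h6⟩ := hC
  have h := main_bound hg h3 hE h2 (X := X) (κ := κ) (fun y hy =>
    chk_sound h1 (fun s t => g (y s) (y t)) ⟨fun _ _ => hg _ _, fun _ _ => hgs _ _⟩
      (no4 hE hK hy))
  have h4 := Nat.le_of_ble_eq_true h4
  have h5 := Nat.le_of_ble_eq_true h5
  have h6 := Nat.le_of_ble_eq_true h6
  simp only [Nat.mul_eq] at h5 h6
  have k4 : (1 : ℝ) ≤ κ := by exact_mod_cast h4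
  have k5 : 5 * (X : ℝ) ≤ 27 * κ := by exact_mod_cast h5
  have k6 : (mx : ℝ) * mx * R ≤ 14 * κ := by exact_mod_cast h6
  have p3 : (0 : ℝ) ≤ (n : ℝ) ^ 3 := by positivity
  have p2 : (0 : ℝ) ≤ (n : ℝ) ^ 2 := by positivity
  have e1 : (X : ℝ) * (n : ℝ) ^ 3 ≤ 27 / 5 * κ * (n : ℝ) ^ 3 :=
    mul_le_mul_of_nonneg_right (by linarith) p3
  have e2 : 600 * ((mx : ℝ) * mx * R + κ) * (n : ℝ) ^ 2 ≤ 600 * (15 * κ) * (n : ℝ) ^ 2 :=
    mul_le_mul_of_nonneg_right (by linarith) p2
  have e3 : 60 * (κ : ℝ) * (H.card : ℝ)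
      ≤ 60 * (κ : ℝ) * (9 / 100 * (n : ℝ) ^ 3 + 150 * (n : ℝ) ^ 2) := by
    calc 60 * (κ : ℝ) * (H.card : ℝ) ≤ _ := h
      _ ≤ 27 / 5 * κ * (n : ℝ) ^ 3 + 600 * (15 * κ) * (n : ℝ) ^ 2 := add_le_add e1 e2
      _ = _ := by ring
  exact le_of_mul_le_mul_left e3 (by linarith)

end

end Pool.Agent.TH865.OG
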