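import Pool.Agent.TH865.OG.Bridge4

/-! `K_4^3`-free 3-graphs encoded by ordered graphs: certificates for the bound `0.558`. -/

set_option autoImplicit false
open Finset

namespace Pool.Agent.TH865.OG

section
variable {n : ℕ}

/-- a certificate for `K_4^3` and the density `0.558` -/
def Cert58 (M : ℕ) : Prop :=
  ∃ L R κ X mx : ℕ, chk bad4 L R κ M X = true ∧ chkm L R mx = true ∧
    Nat.ble 1 κ = true ∧ Nat.ble (Nat.mul 50 X) (Nat.mul 279 κ) = true ∧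
    Nat.ble (Nat.mul (Nat.mul mx mx) R) (Nat.mul 14 κ) = true

theorem bound58 {M : ℕ} (hC : Cert58 M) {g : Fin n → Fin n → ℕ} (hg : ∀ x y, g x y ≤ 1)
    (hgs : ∀ x y, g x y = g y x)
    {H : Finset (Finset (Fin n))} (h3 : ∀ e ∈ H, e.card = 3) (hK : K4 H) (hE : Enc M g H) :
    (H.card : ℝ) ≤ 93 / 1000 * (n : ℝ) ^ 3 + 150 * (n : ℝ) ^ 2 := by
  obtain ⟨L, R, κ, X, mx, h1, h2, h4, h5, h6⟩ := hC
  have h := main_bound hg h3 hE h2 (X := X) (κ := κ) (fun y hy =>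
    chk_sound h1 (fun s t => g (y s) (y t)) ⟨fun _ _ => hg _ _, fun _ _ => hgs _ _⟩
      (no4 hE hK hy))
  have h4 := Nat.le_of_ble_eq_true h4
  have h5 := Nat.le_of_ble_eq_true h5
  have h6 := Nat.le_of_ble_eq_true h6
  simp only [Nat.mul_eq] at h5 h6
  have k4 : (1 : ℝ) ≤ κ := by exact_mod_cast h4
  have k5 : 50 * (X : ℝ) ≤ 279 * κ := by exact_mod_cast h5
  have k6 : (mx : ℝ) * mx * R ≤ 14 * κ := by exact_mod_cast h6
  have p3 : (0 : ℝ) ≤ (n : ℝ) ^ 3 := by positivity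
  have p2 : (0 : ℝ) ≤ (n : ℝ) ^ 2 := by positivity
  have e1 : (X : ℝ) * (n : ℝ) ^ 3 ≤ 279 / 50 * κ * (n : ℝ) ^ 3 :=
    mul_le_mul_of_nonneg_right (by linarith) p3
  have e2 : 600 * ((mx : ℝ) * mx * R + κ) * (n : ℝ) ^ 2 ≤ 600 * (15 * κ) * (n : ℝ) ^ 2 :=
    mul_le_mul_of_nonneg_right (by linarith) p2
  have e3 : 60 * (κ : ℝ) * (H.card : ℝ)
      ≤ 60 * (κ : ℝ) * (93 / 1000 * (n : ℝ) ^ 3 + 150 * (n : ℝ) ^ 2) := by
    calc 60 * (κ : ℝ) * (H.card : ℝ) ≤ _ := h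
      _ ≤ 279 / 50 * κ * (n : ℝ) ^ 3 + 600 * (15 * κ) * (n : ℝ) ^ 2 := add_le_add e1 e2
      _ = _ := by ring
  exact le_of_mul_le_mul_left e3 (by linarith)

end

end Pool.Agent.TH865.OG
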