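import Mathlib

/-!
# Sums of squares over ordered graphs with five vertices

`g` is (the 0/1 adjacency function of) a graph on a linearly ordered finite set. The type of a
triple `a < b < c` is `g a b + 2 g a c + 4 g b c`.
-/

set_option autoImplicit false
open Finset

namespace Pool.Agent.TH865.OG

section defs
variable {V : Type} [LinearOrder V]

/-- the type of a triple -/
def typ (g : V → V → ℕ) (a b c : V) : ℕ := g a b + 2 * g a c + 4 * g b c

/-- position of `d` with respect to `a, b, c` -/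
def gap (a b c d : V) : ℕ :=
  (if a < d then 1 else 0) + (if b < d then 1 else 0) + (if c < d then 1 else 0)

/-- the way in which `d` is attached to `a, b, c` -/
def fl (g : V → V → ℕ) (a b c d : V) : ℕ := 8 * gap a b c d + (g a d + 2 * g b d + 4 * g c d)

/-- the summand -/
def F (g : V → V → ℕ) (u : ℕ → ℕ → ℕ → ℤ) (r : ℕ) (κ : ℤ) (e : ℕ → ℤ) (a b c d d' : V) : ℤ :=
  if a < b ∧ b < c then
    (∑ k ∈ range r, u (typ g a b c) k (fl g a b c d) * u (typ g a b c) k (fl g a b c d'))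
      + κ * e (typ g a b c)
  else 0

end defs

/-- tuples and iterated pairs -/
def e5 (V : Type) : (Fin 5 → V) ≃ V × V × V × V × V where
  toFun x := (x 0, x 1, x 2, x 3, x 4)
  invFun p := ![p.1, p.2.1, p.2.2.1, p.2.2.2.1, p.2.2.2.2]
  left_inv x := by funext i; fin_cases i <;> rfl
  right_inv p := rfl

theorem sum_five {V : Type} [Fintype V] (G : V → V → V → V → V → ℤ) :
    ∑ x : Fin 5 → V, G (x 0) (x 1) (x 2) (x 3) (x 4)
      = ∑ a, ∑ b, ∑ c, ∑ d, ∑ e, G a b c d e := by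
  rw [← Equiv.sum_comp (e5 V).symm]
  simp only [Fintype.sum_prod_type]
  rfl

section lower
variable {V : Type} [LinearOrder V] [Fintype V]

theorem lower (g : V → V → ℕ) (u : ℕ → ℕ → ℕ → ℤ) (r : ℕ) (κ : ℤ) (e : ℕ → ℤ) :
    κ * (Fintype.card V : ℤ) ^ 2 * (∑ a : V, ∑ b : V, ∑ c : V,
      if a < b ∧ b < c then e (typ g a b c) else 0)
      ≤ ∑ x : Fin 5 → V, F g u r κ e (x 0) (x 1) (x 2) (x 3) (x 4) := by
  rw [sum_five (fun a b c d d' => F g u r κ e a b c d d')]
  rw [mul_sum]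
  refine sum_le_sum fun a _ => ?_
  rw [mul_sum]
  refine sum_le_sum fun b _ => ?_
  rw [mul_sum]
  refine sum_le_sum fun c _ => ?_
  by_cases h : a < b ∧ b < c
  · simp only [F, if_pos h]
    have h1 : ∑ d : V, ∑ d' : V,
        ((∑ k ∈ range r, u (typ g a b c) k (fl g a b c d) * u (typ g a b c) k (fl g a b c d'))
          + κ * e (typ g a b c))
        = (∑ k ∈ range r, (∑ d : V, u (typ g a b c) k (fl g a b c d)) ^ 2)
          + (Fintype.card V : ℤ) ^ 2 * (κ * e (typ g a b c)) := by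
      simp only [sum_add_distrib]
      congr 1
      · calc ∑ d : V, ∑ d' : V, ∑ k ∈ range r,
              u (typ g a b c) k (fl g a b c d) * u (typ g a b c) k (fl g a b c d')
            = ∑ d : V, ∑ k ∈ range r, ∑ d' : V,
              u (typ g a b c) k (fl g a b c d) * u (typ g a b c) k (fl g a b c d') :=
              sum_congr rfl fun d _ => sum_comm
          _ = ∑ k ∈ range r, ∑ d : V, ∑ d' : V,
              u (typ g a b c) k (fl g a b c d) * u (typ g a b c) k (fl g a b c d') := sum_comm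
          _ = _ := by
              refine sum_congr rfl fun k _ => ?_
              rw [sq, sum_mul_sum]
      · simp only [sum_const, card_univ, nsmul_eq_mul]
        ring
    rw [h1]
    have h2 : 0 ≤ ∑ k ∈ range r, (∑ d : V, u (typ g a b c) k (fl g a b c d)) ^ 2 :=
      sum_nonneg fun k _ => sq_nonneg _
    nlinarith
  · simp only [F, if_neg h]
    simp

end lower

section upper

/-- The tuples `(i,j,k,p,q)` of distinct indices with `i < j < k`. -/
def T20 : List (Fin 5 × Fin 5 × Fin 5 × Fin 5 × Fin 5) :=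
  [(0,1,2,3,4), (0,1,2,4,3), (0,1,3,2,4), (0,1,3,4,2), (0,1,4,2,3), (0,1,4,3,2),
   (0,2,3,1,4), (0,2,3,4,1), (0,2,4,1,3), (0,2,4,3,1), (0,3,4,1,2), (0,3,4,2,1),
   (1,2,3,0,4), (1,2,3,4,0), (1,2,4,0,3), (1,2,4,3,0), (1,3,4,0,2), (1,3,4,2,0),
   (2,3,4,0,1), (2,3,4,1,0)]

theorem T20_nodup : T20.Nodup := by decide +kernel

theorem perm_set : ((univ : Finset (Equiv.Perm (Fin 5))).filter
    fun σ => σ 0 < σ 1 ∧ σ 1 < σ 2).image (fun σ => (σ 0, σ 1, σ 2, σ 3, σ 4)) = T20.toFinset := by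
  decide +kernel

theorem sum_perm (f : Fin 5 → Fin 5 → Fin 5 → Fin 5 → Fin 5 → ℤ)
    (h0 : ∀ i j k p q, ¬ (i < j ∧ j < k) → f i j k p q = 0) :
    ∑ σ : Equiv.Perm (Fin 5), f (σ 0) (σ 1) (σ 2) (σ 3) (σ 4)
      = (T20.map fun t => f t.1 t.2.1 t.2.2.1 t.2.2.2.1 t.2.2.2.2).sum := by
  rw [← List.sum_toFinset _ T20_nodup, ← perm_set, sum_image]
  · refine (sum_filter_of_ne ?_).symm
    intro σ _ hne
    by_contra hc
    exact hne (h0 _ _ _ _ _ hc)
  · intro σ _ τ _ h
    simp only [Prod.mk.injEq] at h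
    obtain ⟨h0, h1, h2, h3, h4⟩ := h
    ext i
    fin_cases i
    · exact congrArg Fin.val h0
    · exact congrArg Fin.val h1
    · exact congrArg Fin.val h2
    · exact congrArg Fin.val h3
    · exact congrArg Fin.val h4

variable {V : Type} [LinearOrder V]

theorem F_pull (g : V → V → ℕ) (u : ℕ → ℕ → ℕ → ℤ) (r : ℕ) (κ : ℤ) (e : ℕ → ℤ) (y : Fin 5 → V)
    (hy : StrictMono y) (i j k p q : Fin 5) :
    F g u r κ e (y i) (y j) (y k) (y p) (y q)
      = F (fun s t => g (y s) (y t)) u r κ e i j k p q := by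
  unfold F fl gap typ
  simp only [hy.lt_iff_lt]

/-- the value on a sorted tuple -/
def leafZ (b : Fin 5 → Fin 5 → ℕ) (u : ℕ → ℕ → ℕ → ℤ) (r : ℕ) (κ : ℤ) (e : ℕ → ℤ) : ℤ :=
  (T20.map fun t => F b u r κ e t.1 t.2.1 t.2.2.1 t.2.2.2.1 t.2.2.2.2).sum

theorem sorted (g : V → V → ℕ) (u : ℕ → ℕ → ℕ → ℤ) (r : ℕ) (κ : ℤ) (e : ℕ → ℤ) (y : Fin 5 → V)
    (hy : StrictMono y) :
    ∑ σ : Equiv.Perm (Fin 5), F g u r κ e (y (σ 0)) (y (σ 1)) (y (σ 2)) (y (σ 3)) (y (σ 4))
      = leafZ (fun s t => g (y s) (y t)) u r κ e := by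
  simp only [F_pull g u r κ e y hy]
  exact sum_perm _ fun i j k p q h => by unfold F; rw [if_neg h]

theorem perm_inv (g : V → V → ℕ) (u : ℕ → ℕ → ℕ → ℤ) (r : ℕ) (κ : ℤ) (e : ℕ → ℤ) (x : Fin 5 → V)
    (τ : Equiv.Perm (Fin 5)) :
    ∑ σ : Equiv.Perm (Fin 5), F g u r κ e (x (σ 0)) (x (σ 1)) (x (σ 2)) (x (σ 3)) (x (σ 4))
      = ∑ σ : Equiv.Perm (Fin 5),
        F g u r κ e (x (τ (σ 0))) (x (τ (σ 1))) (x (τ (σ 2))) (x (τ (σ 3))) (x (τ (σ 4))) := by
  rw [← Equiv.sum_comp (Equiv.mulLeft τ)]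
  rfl

theorem sum_all [Fintype V] (g : V → V → ℕ) (u : ℕ → ℕ → ℕ → ℤ) (r : ℕ) (κ : ℤ) (e : ℕ → ℤ) :
    ∑ x : Fin 5 → V, ∑ σ : Equiv.Perm (Fin 5),
        F g u r κ e (x (σ 0)) (x (σ 1)) (x (σ 2)) (x (σ 3)) (x (σ 4))
      = 120 * ∑ x : Fin 5 → V, F g u r κ e (x 0) (x 1) (x 2) (x 3) (x 4) := by
  rw [sum_comm]
  have h : ∀ σ : Equiv.Perm (Fin 5),
      ∑ x : Fin 5 → V, F g u r κ e (x (σ 0)) (x (σ 1)) (x (σ 2)) (x (σ 3)) (x (σ 4))
        = ∑ x : Fin 5 → V, F g u r κ e (x 0) (x 1) (x 2) (x 3) (x 4) := by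
    intro σ
    rw [← Equiv.sum_comp (Equiv.arrowCongr σ.symm (Equiv.refl V))
      (fun x => F g u r κ e (x 0) (x 1) (x 2) (x 3) (x 4))]
    rfl
  rw [sum_congr rfl fun σ _ => h σ, sum_const, card_univ, Fintype.card_perm, Fintype.card_fin]
  rw [nsmul_eq_mul]
  norm_num [Nat.factorial]

end upper

/-- number of tuples with a repetition -/
theorem noninj {V : Type} [Fintype V] [DecidableEq V] :
    ((univ : Finset (Fin 5 → V)).filter fun x => ¬ Function.Injective x).card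
      ≤ 10 * Fintype.card V ^ 4 := by
  have hone : ∀ i j : Fin 5, i ≠ j →
      ((univ : Finset (Fin 5 → V)).filter fun x => x i = x j).card ≤ Fintype.card V ^ 4 := by
    intro i j hij
    have h1 : Fintype.card ({k : Fin 5 // k ≠ j} → V) = Fintype.card V ^ 4 := by
      rw [Fintype.card_fun, Fintype.card_subtype_compl, Fintype.card_fin,
        Fintype.card_subtype_eq]
    rw [← h1, ← card_univ]
    refine card_le_card_of_injOn (fun x => fun k : {k : Fin 5 // k ≠ j} => x k.1)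
      (fun _ _ => mem_coe.2 (mem_univ _)) ?_
    intro x hx y hy h
    have hx' : x i = x j := (mem_filter.1 (mem_coe.1 hx)).2
    have hy' : y i = y j := (mem_filter.1 (mem_coe.1 hy)).2
    have key : ∀ k, k ≠ j → x k = y k := fun k hk => congrFun h ⟨k, hk⟩
    funext k
    by_cases hk : k = j
    · rw [hk, ← hx', ← hy']
      exact key i hij
    · exact key k hk
  set P : Finset (Fin 5 × Fin 5) := univ.filter fun p : Fin 5 × Fin 5 => p.1 < p.2 with hP
  have hPc : P.card = 10 := by rw [hP]; decide +kernel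
  have hsub : ((univ : Finset (Fin 5 → V)).filter fun x => ¬ Function.Injective x)
      ⊆ P.biUnion fun p => (univ : Finset (Fin 5 → V)).filter fun x => x p.1 = x p.2 := by
    intro x hx
    have h := (mem_filter.1 hx).2
    unfold Function.Injective at h
    push Not at h
    obtain ⟨i, j, hij, hne⟩ := h
    rw [mem_biUnion]
    rcases lt_or_gt_of_ne hne with hl | hl
    · exact ⟨(i, j), mem_filter.2 ⟨mem_univ _, hl⟩, mem_filter.2 ⟨mem_univ _, hij⟩⟩
    · exact ⟨(j, i), mem_filter.2 ⟨mem_univ _, hl⟩, mem_filter.2 ⟨mem_univ _, hij.symm⟩⟩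
  calc _ ≤ _ := card_le_card hsub
    _ ≤ ∑ p ∈ P, ((univ : Finset (Fin 5 → V)).filter fun x => x p.1 = x p.2).card :=
        card_biUnion_le
    _ ≤ ∑ _p ∈ P, Fintype.card V ^ 4 :=
        sum_le_sum fun p hp => hone p.1 p.2 (mem_filter.1 hp).2.ne
    _ = 10 * Fintype.card V ^ 4 := by rw [sum_const, hPc, smul_eq_mul]

/-- the main inequality: if the value is at most `X` on every sorted tuple and the summand is at
most `W` everywhere -/
theorem main {V : Type} [LinearOrder V] [Fintype V] (g : V → V → ℕ) (u : ℕ → ℕ → ℕ → ℤ) (r : ℕ)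
    (κ : ℤ) (e : ℕ → ℤ) (X W : ℤ) (hX : 0 ≤ X) (hW : 0 ≤ W)
    (hs : ∀ y : Fin 5 → V, StrictMono y → leafZ (fun s t => g (y s) (y t)) u r κ e ≤ X)
    (hall : ∀ a b c d d' : V, F g u r κ e a b c d d' ≤ W) :
    120 * (κ * (Fintype.card V : ℤ) ^ 2 * (∑ a : V, ∑ b : V, ∑ c : V,
      if a < b ∧ b < c then e (typ g a b c) else 0))
      ≤ X * (Fintype.card V : ℤ) ^ 5 + 1200 * W * (Fintype.card V : ℤ) ^ 4 := by
  classical
  refine le_trans (mul_le_mul_of_nonneg_left (lower g u r κ e) (by norm_num)) ?_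
  rw [← sum_all]
  have h1 : ∀ x : Fin 5 → V, ∑ σ : Equiv.Perm (Fin 5),
      F g u r κ e (x (σ 0)) (x (σ 1)) (x (σ 2)) (x (σ 3)) (x (σ 4))
      ≤ X + (if ¬ Function.Injective x then 120 * W else 0) := by
    intro x
    by_cases hx : Function.Injective x
    · rw [if_neg (not_not.2 hx), add_zero, perm_inv g u r κ e x (Tuple.sort x)]
      have hm : StrictMono (x ∘ Tuple.sort x) :=
        (Tuple.monotone_sort x).strictMono_of_injective (hx.comp (Tuple.sort x).injective)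
      have h2 := sorted g u r κ e (x ∘ Tuple.sort x) hm
      have h3 := hs _ hm
      rw [← h2] at h3
      exact h3
    · rw [if_pos hx]
      have h2 : ∑ σ : Equiv.Perm (Fin 5),
          F g u r κ e (x (σ 0)) (x (σ 1)) (x (σ 2)) (x (σ 3)) (x (σ 4))
          ≤ ∑ _σ : Equiv.Perm (Fin 5), W := sum_le_sum fun σ _ => hall _ _ _ _ _
      rw [sum_const, card_univ, Fintype.card_perm, Fintype.card_fin, nsmul_eq_mul] at h2
      have h3 : ((Nat.factorial 5 : ℕ) : ℤ) = 120 := by norm_num [Nat.factorial]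
      rw [h3] at h2
      linarith
  refine le_trans (sum_le_sum fun x _ => h1 x) ?_
  rw [sum_add_distrib, sum_const, card_univ, Fintype.card_fun, Fintype.card_fin, nsmul_eq_mul,
    ← sum_filter, sum_const, nsmul_eq_mul]
  have h2 : (((univ : Finset (Fin 5 → V)).filter fun x => ¬ Function.Injective x).card : ℤ)
      ≤ 10 * (Fintype.card V : ℤ) ^ 4 := by exact_mod_cast noninj (V := V)
  push_cast
  have h3 := mul_le_mul_of_nonneg_right h2 (show (0 : ℤ) ≤ 120 * W by positivity)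
  linarith

end Pool.Agent.TH865.OG
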