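import Pool.Agent.TH865.OG.Core

/-! Kernel-reducible checker for the certificates. -/

set_option autoImplicit false
set_option maxRecDepth 100000
open Finset

namespace Pool.Agent.TH865.OG

def nsum : ℕ → (ℕ → ℕ) → ℕ
  | 0, _ => 0
  | (k + 1), f => Nat.add (nsum k f) (f k)

theorem nsum_eq (n : ℕ) (f : ℕ → ℕ) : nsum n f = ∑ k ∈ range n, f k := by
  induction n with
  | zero => rfl
  | succ n ih => rw [sum_range_succ, ← ih]; rfl

/-- entry of the table: 12 bits, offset 2048 -/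
def ent (L R t k i : ℕ) : ℕ :=
  Nat.mod (Nat.shiftRight L (Nat.mul 12 (Nat.add (Nat.mul 32 (Nat.add (Nat.mul R t) k)) i))) 4096

def ty (x y z : ℕ) : ℕ := Nat.add x (Nat.add (Nat.mul 2 y) (Nat.mul 4 z))
def fg (h x y z : ℕ) : ℕ := Nat.add (Nat.mul 8 h) (ty x y z)
def ee (M t : ℕ) : ℕ := Nat.mod (Nat.shiftRight M t) 2

/-- positive part for one root triple -/
def pp (L R κ M t i j : ℕ) : ℕ :=
  Nat.add (nsum R fun k => Nat.mul (ent L R t k i) (ent L R t k j)) (Nat.mul κ (ee M t))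
/-- part with the factor 2048 -/
def ss (L R t i j : ℕ) : ℕ := nsum R fun k => Nat.add (ent L R t k i) (ent L R t k j)

def sum10 (f : ℕ → ℕ → ℕ → ℕ) (a b c d e p q r s t : ℕ) : ℕ :=
  -- a = 01, b = 02, c = 03, d = 04, e = 12, p = 13, q = 14, r = 23, s = 24, t = 34
  Nat.add (f (ty a b e) (fg 3 c p r) (fg 3 d q s))
  (Nat.add (f (ty a c p) (fg 2 b e r) (fg 3 d q t))
  (Nat.add (f (ty a d q) (fg 2 b e s) (fg 2 c p t))
  (Nat.add (f (ty b c r) (fg 1 a e p) (fg 3 d s t))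
  (Nat.add (f (ty b d s) (fg 1 a e q) (fg 2 c r t))
  (Nat.add (f (ty c d t) (fg 1 a p q) (fg 1 b r s))
  (Nat.add (f (ty e p r) (fg 0 a b c) (fg 3 q s t))
  (Nat.add (f (ty e q s) (fg 0 a b d) (fg 2 p r t))
  (Nat.add (f (ty p q t) (fg 0 a c d) (fg 1 e r s))
  (f (ty r s t) (fg 0 b c d) (fg 0 e p q))))))))))

def ok (L R κ M X a b c d e p q r s t : ℕ) : Bool :=
  Nat.ble (Nat.add (sum10 (pp L R κ M) a b c d e p q r s t) (Nat.mul (Nat.mul 10 R) 4194304))
    (Nat.add X (Nat.mul 2048 (sum10 (ss L R) a b c d e p q r s t)))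

/-- all ten triples are edges -/
def bad5 (M a b c d e p q r s t : ℕ) : Bool :=
  Nat.beq (sum10 (fun x _ _ => ee M x) a b c d e p q r s t) 10

/-- all four triples of four vertices are edges -/
def quad (M a b c e p r : ℕ) : Bool :=
  Nat.beq (Nat.add (ee M (ty a b e)) (Nat.add (ee M (ty a c p)) (Nat.add (ee M (ty b c r))
    (ee M (ty e p r))))) 4

def bad4 (M a b c d e p q r s t : ℕ) : Bool :=
  or (quad M a b c e p r) (or (quad M a b d e q s) (or (quad M a c d p q t)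
    (or (quad M b c d r s t) (quad M e p q r s t))))

def two (f : ℕ → Bool) : Bool := and (f 0) (f 1)

theorem two_true {f : ℕ → Bool} (h : two f = true) {d : ℕ} (hd : d ≤ 1) : f d = true := by
  unfold two at h
  rw [Bool.and_eq_true] at h
  interval_cases d
  · exact h.1
  · exact h.2

def chk (bad : ℕ → ℕ → ℕ → ℕ → ℕ → ℕ → ℕ → ℕ → ℕ → ℕ → ℕ → Bool) (L R κ M X : ℕ) : Bool :=
  two fun a => two fun b => two fun c => two fun d => two fun e => two fun p => two fun q =>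
  two fun r => two fun s => two fun t =>
    cond (bad M a b c d e p q r s t) true (ok L R κ M X a b c d e p q r s t)

/-- the vectors -/
def uu (L R : ℕ) (t k i : ℕ) : ℤ := (ent L R t k i : ℤ) - 2048

theorem ent_lt (L R t k i : ℕ) : ent L R t k i < 4096 := Nat.mod_lt _ (by norm_num)

theorem ee_le (M t : ℕ) : ee M t ≤ 1 := by
  have : ee M t < 2 := Nat.mod_lt _ (by norm_num)
  omega

theorem F_le {V : Type} [LinearOrder V] (g : V → V → ℕ) (L R κ M : ℕ) (a b c d d' : V) :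
    F g (uu L R) R κ (fun t => (ee M t : ℤ)) a b c d d' ≤ 4194304 * R + κ := by
  unfold F
  split_ifs with h
  · have h1 : ∀ t k i, |uu L R t k i| ≤ 2048 := by
      intro t k i
      have := ent_lt L R t k i
      unfold uu
      rw [abs_le]
      constructor <;> [skip; skip] <;> omega
    have h2 : ∑ k ∈ range R, uu L R (typ g a b c) k (fl g a b c d) *
        uu L R (typ g a b c) k (fl g a b c d') ≤ ∑ _k ∈ range R, (4194304 : ℤ) := by
      refine sum_le_sum fun k _ => ?_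
      refine le_trans (le_abs_self _) ?_
      rw [abs_mul]
      calc _ ≤ (2048 : ℤ) * 2048 :=
            mul_le_mul (h1 _ _ _) (h1 _ _ _) (abs_nonneg _) (by norm_num)
        _ = _ := by norm_num
    rw [sum_const, card_range, nsmul_eq_mul] at h2
    have h3 : (κ : ℤ) * (ee M (typ g a b c) : ℤ) ≤ κ := by
      have := ee_le M (typ g a b c)
      have h4 : ((ee M (typ g a b c) : ℕ) : ℤ) ≤ 1 := by exact_mod_cast this
      have h5 : (0 : ℤ) ≤ κ := by positivity
      nlinarith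
    linarith
  · positivity

/-- symmetric 0/1 function -/
def Bit (b : Fin 5 → Fin 5 → ℕ) : Prop := (∀ i j, b i j ≤ 1) ∧ ∀ i j, b i j = b j i

theorem pair_eq (L R κ M t i j : ℕ) :
    (∑ k ∈ range R, uu L R t k i * uu L R t k j) + (κ : ℤ) * (ee M t : ℤ)
      = (pp L R κ M t i j : ℤ) - 2048 * (ss L R t i j : ℤ) + R * 4194304 := by
  unfold pp ss uu
  rw [nsum_eq, nsum_eq]
  simp only [Nat.add_eq, Nat.mul_eq]
  push_cast
  have : ∑ k ∈ range R, ((ent L R t k i : ℤ) - 2048) * ((ent L R t k j : ℤ) - 2048)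
      = ∑ k ∈ range R, ((ent L R t k i : ℤ) * (ent L R t k j : ℤ))
        - 2048 * ∑ k ∈ range R, ((ent L R t k i : ℤ) + (ent L R t k j : ℤ)) + R * 4194304 := by
    rw [mul_sum, ← sum_sub_distrib]
    have h : (R : ℤ) * 4194304 = ∑ _k ∈ range R, (4194304 : ℤ) := by
      rw [sum_const, card_range, nsmul_eq_mul]
    rw [h, ← sum_add_distrib]
    exact sum_congr rfl fun k _ => by ring
  rw [this]
  ring

theorem F_val (b : Fin 5 → Fin 5 → ℕ) (L R κ M : ℕ) {i j k p q : Fin 5} (hij : i < j)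
    (hjk : j < k) :
    F b (uu L R) R κ (fun t => (ee M t : ℤ)) i j k p q
      = (pp L R κ M (typ b i j k) (fl b i j k p) (fl b i j k q) : ℤ)
        - 2048 * (ss L R (typ b i j k) (fl b i j k p) (fl b i j k q) : ℤ) + R * 4194304 := by
  unfold F
  rw [if_pos ⟨hij, hjk⟩, pair_eq]

theorem F_swap (b : Fin 5 → Fin 5 → ℕ) (L R κ M : ℕ) (i j k p q : Fin 5) :
    F b (uu L R) R κ (fun t => (ee M t : ℤ)) i j k p q
      = F b (uu L R) R κ (fun t => (ee M t : ℤ)) i j k q p := by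
  unfold F
  split_ifs
  · congr 1
    exact sum_congr rfl fun k _ => mul_comm _ _
  · rfl

theorem leaf_eq (b : Fin 5 → Fin 5 → ℕ) (hb : Bit b) (L R κ M : ℕ) :
    leafZ b (uu L R) R κ (fun t => (ee M t : ℤ))
      = 2 * ((sum10 (pp L R κ M) (b 0 1) (b 0 2) (b 0 3) (b 0 4) (b 1 2) (b 1 3) (b 1 4) (b 2 3)
          (b 2 4) (b 3 4) : ℤ)
        - 2048 * (sum10 (ss L R) (b 0 1) (b 0 2) (b 0 3) (b 0 4) (b 1 2) (b 1 3) (b 1 4) (b 2 3)
          (b 2 4) (b 3 4) : ℤ) + 10 * R * 4194304) := by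
  have hs := hb.2
  unfold leafZ T20
  simp only [List.map_cons, List.map_nil, List.sum_cons, List.sum_nil]
  rw [F_swap b L R κ M 0 1 2 4 3, F_swap b L R κ M 0 1 3 4 2, F_swap b L R κ M 0 1 4 3 2,
    F_swap b L R κ M 0 2 3 4 1, F_swap b L R κ M 0 2 4 3 1, F_swap b L R κ M 0 3 4 2 1,
    F_swap b L R κ M 1 2 3 4 0, F_swap b L R κ M 1 2 4 3 0, F_swap b L R κ M 1 3 4 2 0,
    F_swap b L R κ M 2 3 4 1 0]
  rw [F_val b L R κ M (show (0 : Fin 5) < 1 by decide) (show (1 : Fin 5) < 2 by decide),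
    F_val b L R κ M (show (0 : Fin 5) < 1 by decide) (show (1 : Fin 5) < 3 by decide),
    F_val b L R κ M (show (0 : Fin 5) < 1 by decide) (show (1 : Fin 5) < 4 by decide),
    F_val b L R κ M (show (0 : Fin 5) < 2 by decide) (show (2 : Fin 5) < 3 by decide),
    F_val b L R κ M (show (0 : Fin 5) < 2 by decide) (show (2 : Fin 5) < 4 by decide),
    F_val b L R κ M (show (0 : Fin 5) < 3 by decide) (show (3 : Fin 5) < 4 by decide),
    F_val b L R κ M (show (1 : Fin 5) < 2 by decide) (show (2 : Fin 5) < 3 by decide),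
    F_val b L R κ M (show (1 : Fin 5) < 2 by decide) (show (2 : Fin 5) < 4 by decide),
    F_val b L R κ M (show (1 : Fin 5) < 3 by decide) (show (3 : Fin 5) < 4 by decide),
    F_val b L R κ M (show (2 : Fin 5) < 3 by decide) (show (3 : Fin 5) < 4 by decide)]
  have g1 : ∀ i j k p : Fin 5, gap i j k p = (if i < p then 1 else 0) + (if j < p then 1 else 0)
    + (if k < p then 1 else 0) := fun _ _ _ _ => rfl
  have t1 : ∀ i j k : Fin 5, typ b i j k = ty (b i j) (b i k) (b j k) := by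
    intro i j k
    unfold typ ty
    simp only [Nat.add_eq, Nat.mul_eq]
    ring
  have f1 : ∀ i j k p : Fin 5, fl b i j k p = fg (gap i j k p) (b i p) (b j p) (b k p) := by
    intro i j k p
    unfold fl fg ty
    simp only [Nat.add_eq, Nat.mul_eq]
    ring
  simp only [t1, f1]
  rw [show gap (0 : Fin 5) 1 2 3 = 3 by decide, show gap (0 : Fin 5) 1 2 4 = 3 by decide,
    show gap (0 : Fin 5) 1 3 2 = 2 by decide, show gap (0 : Fin 5) 1 3 4 = 3 by decide,
    show gap (0 : Fin 5) 1 4 2 = 2 by decide, show gap (0 : Fin 5) 1 4 3 = 2 by decide,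
    show gap (0 : Fin 5) 2 3 1 = 1 by decide, show gap (0 : Fin 5) 2 3 4 = 3 by decide,
    show gap (0 : Fin 5) 2 4 1 = 1 by decide, show gap (0 : Fin 5) 2 4 3 = 2 by decide,
    show gap (0 : Fin 5) 3 4 1 = 1 by decide, show gap (0 : Fin 5) 3 4 2 = 1 by decide,
    show gap (1 : Fin 5) 2 3 0 = 0 by decide, show gap (1 : Fin 5) 2 3 4 = 3 by decide,
    show gap (1 : Fin 5) 2 4 0 = 0 by decide, show gap (1 : Fin 5) 2 4 3 = 2 by decide,
    show gap (1 : Fin 5) 3 4 0 = 0 by decide, show gap (1 : Fin 5) 3 4 2 = 1 by decide,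
    show gap (2 : Fin 5) 3 4 0 = 0 by decide, show gap (2 : Fin 5) 3 4 1 = 0 by decide]
  rw [hs 3 2, hs 4 2, hs 4 3, hs 2 1, hs 3 1, hs 4 1, hs 1 0, hs 2 0, hs 3 0, hs 4 0]
  unfold sum10
  simp only [Nat.add_eq]
  push_cast
  ring

theorem chk_sound {bad : ℕ → ℕ → ℕ → ℕ → ℕ → ℕ → ℕ → ℕ → ℕ → ℕ → ℕ → Bool} {L R κ M X : ℕ}
    (h : chk bad L R κ M X = true) (b : Fin 5 → Fin 5 → ℕ) (hb : Bit b)
    (hn : bad M (b 0 1) (b 0 2) (b 0 3) (b 0 4) (b 1 2) (b 1 3) (b 1 4) (b 2 3) (b 2 4) (b 3 4)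
      = false) :
    leafZ b (uu L R) R κ (fun t => (ee M t : ℤ)) ≤ 2 * X := by
  unfold chk at h
  have h1 := two_true (two_true (two_true (two_true (two_true (two_true (two_true (two_true
    (two_true (two_true h (hb.1 0 1)) (hb.1 0 2)) (hb.1 0 3)) (hb.1 0 4)) (hb.1 1 2)) (hb.1 1 3))
    (hb.1 1 4)) (hb.1 2 3)) (hb.1 2 4)) (hb.1 3 4)
  rw [hn, cond_false] at h1
  unfold ok at h1
  have h2 := Nat.le_of_ble_eq_true h1
  simp only [Nat.add_eq, Nat.mul_eq] at h2
  rw [leaf_eq b hb]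
  have h3 : (((sum10 (pp L R κ M) (b 0 1) (b 0 2) (b 0 3) (b 0 4) (b 1 2) (b 1 3) (b 1 4) (b 2 3)
      (b 2 4) (b 3 4) + 10 * R * 4194304 : ℕ)) : ℤ) ≤
      ((X + 2048 * sum10 (ss L R) (b 0 1) (b 0 2) (b 0 3) (b 0 4) (b 1 2) (b 1 3) (b 1 4) (b 2 3)
      (b 2 4) (b 3 4) : ℕ) : ℤ) := by exact_mod_cast h2
  push_cast at h3
  linarith

end Pool.Agent.TH865.OG
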