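import Pool.Agent.TH865.OG.Ca0
import Pool.Agent.TH865.OG.Ca1
import Pool.Agent.TH865.OG.Ca2
import Pool.Agent.TH865.OG.Ca3
import Pool.Agent.TH865.OG.Ca4
import Pool.Agent.TH865.OG.Ca5
import Pool.Agent.TH865.OG.Ca6
import Pool.Agent.TH865.OG.Ca7
import Pool.Agent.W38.KF.Main

/-! `K_5^3`-free 3-graphs encoded by an ordered graph: all rules. -/

set_option autoImplicit false
set_option maxRecDepth 100000
open Finset

namespace Pool.Agent.TH865.OG

theorem cert_mem : ∀ M < 128, ee M 0 = 1 → ¬ (ee M 1 = 1 ∧ ee M 4 = 1) → M ∈
    ([1, 3, 5, 7, 9, 11, 13, 15, 17, 21, 25, 29, 33, 35, 37, 39, 41, 43, 45, 47, 49, 53, 57, 61, 65, 67, 69, 71, 73, 75, 77, 79, 81, 85, 89, 93, 97, 99, 101, 103, 105, 107, 109, 111, 113, 117, 121, 125] : List ℕ) := by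
  decide +kernel

theorem cert_all (M : ℕ) (hM : M < 128) (h0 : ee M 0 = 1) (h14 : ¬ (ee M 1 = 1 ∧ ee M 4 = 1)) :
    Cert5 M := by
  have h := cert_mem M hM h0 h14
  simp only [List.mem_cons, List.not_mem_nil, or_false] at h
  rcases h with rfl | rfl | rfl | rfl | rfl | rfl | rfl | rfl | rfl | rfl | rfl | rfl | rfl | rfl | rfl | rfl | rfl | rfl | rfl | rfl | rfl | rfl | rfl | rfl | rfl | rfl | rfl | rfl | rfl | rfl | rfl | rfl | rfl | rfl | rfl | rfl | rfl | rfl | rfl | rfl | rfl | rfl | rfl | rfl | rfl | rfl | rfl | rfl
  · exact ca_1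
  · exact ca_3
  · exact ca_5
  · exact ca_7
  · exact ca_9
  · exact ca_11
  · exact ca_13
  · exact ca_15
  · exact ca_17
  · exact ca_21
  · exact ca_25
  · exact ca_29
  · exact ca_33
  · exact ca_35
  · exact ca_37
  · exact ca_39
  · exact ca_41
  · exact ca_43
  · exact ca_45
  · exact ca_47
  · exact ca_49
  · exact ca_53
  · exact ca_57
  · exact ca_61
  · exact ca_65
  · exact ca_67
  · exact ca_69
  · exact ca_71
  · exact ca_73
  · exact ca_75
  · exact ca_77
  · exact ca_79
  · exact ca_81
  · exact ca_85
  · exact ca_89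
  · exact ca_93
  · exact ca_97
  · exact ca_99
  · exact ca_101
  · exact ca_103
  · exact ca_105
  · exact ca_107
  · exact ca_109
  · exact ca_111
  · exact ca_113
  · exact ca_117
  · exact ca_121
  · exact ca_125

/-- the rule with a given table -/
def mk (r : Fin 8 → Bool) : ℕ := ∑ t : Fin 8, (r t).toNat * 2 ^ (t : ℕ)

theorem mk_ee : ∀ (r : Fin 8 → Bool) (t : Fin 8), ee (mk r) t = (r t).toNat := by
  decide +kernel

theorem mk_lt : ∀ r : Fin 8 → Bool, mk r < 256 ∧ (r 7 = false → mk r < 128) := by
  decide +kernel

section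
variable {n : ℕ}

theorem typ_not {g : Fin n → Fin n → ℕ} (hg : ∀ x y, g x y ≤ 1) (a b c : Fin n) :
    typ (fun x y => 1 - g x y) a b c = 7 - typ g a b c := by
  show (1 - g a b) + 2 * (1 - g a c) + 4 * (1 - g b c) = 7 - (g a b + 2 * g a c + 4 * g b c)
  have := hg a b
  have := hg a c
  have := hg b c
  omega

theorem perm_set3 {H : Finset (Finset (Fin n))} {x y z : Fin n} :
    (({x, y, z} : Finset (Fin n)) ∈ H ↔ ({y, x, z} : Finset (Fin n)) ∈ H) ∧
    (({x, y, z} : Finset (Fin n)) ∈ H ↔ ({z, x, y} : Finset (Fin n)) ∈ H) ∧
    (({x, y, z} : Finset (Fin n)) ∈ H ↔ ({z, y, x} : Finset (Fin n)) ∈ H) := by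
  refine ⟨?_, ?_, ?_⟩
  · rw [show ({x, y, z} : Finset (Fin n)) = {y, x, z} by
      ext v; simp only [mem_insert, mem_singleton]; tauto]
  · rw [show ({x, y, z} : Finset (Fin n)) = {z, x, y} by
      ext v; simp only [mem_insert, mem_singleton]; tauto]
  · rw [show ({x, y, z} : Finset (Fin n)) = {z, y, x} by
      ext v; simp only [mem_insert, mem_singleton]; tauto]

theorem half5 {g : Fin n → Fin n → ℕ} (hg : ∀ x y, g x y ≤ 1) (hgs : ∀ x y, g x y = g y x)
    {H : Finset (Finset (Fin n))} (h3 : ∀ e ∈ H, e.card = 3) (hK : K5 H) (r : Fin 8 → Bool)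
    (hr : ∀ a b c : Fin n, a < b → b < c → (({a, b, c} : Finset (Fin n)) ∈ H ↔
      ∃ t : Fin 8, (t : ℕ) = typ g a b c ∧ r t = true))
    (r0 : r 0 = true) (r7 : r 7 = false) :
    (H.card : ℝ) ≤ (n : ℝ) ^ 3 / 8 + 150 * (n : ℝ) ^ (11 / 4 : ℝ) := by
  have hp : (0 : ℝ) ≤ (n : ℝ) ^ (11 / 4 : ℝ) := by positivity
  by_cases h14 : r 1 = true ∧ r 4 = true
  · have hS := Pool.Agent.W38.KF.sandwich (fun x y : Fin n => x < y ∧ g x y = 0) (by
      rintro x y ⟨h, _⟩ ⟨h', _⟩
      exact absurd h (lt_asymm h')) H h3 hK
      (by
        have key : ∀ x y z : Fin n, x < y → y < z → g x z = 0 → g y z = 0 →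
            ({x, y, z} : Finset (Fin n)) ∈ H := by
          intro x y z hxy hyz h2 h5
          rw [hr x y z hxy hyz]
          have h6 := hg x y
          rcases Nat.lt_or_ge (g x y) 1 with h7 | h7
          · exact ⟨0, by unfold typ; show 0 = _; omega, r0⟩
          · exact ⟨1, by unfold typ; show 1 = _; omega, h14.1⟩
        rintro x y z hxy ⟨h1, h2⟩ ⟨h4, h5⟩
        rcases lt_or_gt_of_ne hxy with h | h
        · exact key x y z h h4 h2 h5
        · rw [perm_set3.1]
          exact key y x z h h1 h5 h2)
      (by
        have key : ∀ x y z : Fin n, z < x → x < y → g z x = 0 → g z y = 0 →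
            ({z, x, y} : Finset (Fin n)) ∈ H := by
          intro x y z hzx hxy h2 h5
          rw [hr z x y hzx hxy]
          have h6 := hg x y
          rcases Nat.lt_or_ge (g x y) 1 with h7 | h7
          · exact ⟨0, by unfold typ; show 0 = _; omega, r0⟩
          · exact ⟨4, by unfold typ; show 4 = _; omega, h14.2⟩
        rintro x y z hxy ⟨h1, h2⟩ ⟨h4, h5⟩
        rcases lt_or_gt_of_ne hxy with h | h
        · rw [perm_set3.2.1]
          exact key x y z h1 h h2 h5
        · rw [perm_set3.2.2]
          exact key y x z h4 h h5 h2)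
      (by
        intro x y z hxy hxz hyz hm
        have key : ∀ u v : Fin n, u ≠ v → g u v = 0 →
            (u < v ∧ g u v = 0) ∨ (v < u ∧ g v u = 0) := by
          intro u v huv h
          rcases lt_or_gt_of_ne huv with h' | h'
          · exact Or.inl ⟨h', h⟩
          · exact Or.inr ⟨h', by rw [hgs v u]; exact h⟩
        by_cases b1 : g x y = 0
        · rcases key x y hxy b1 with h | h
          · exact Or.inl h
          · exact Or.inr (Or.inl h)
        by_cases b2 : g x z = 0
        · rcases key x z hxz b2 with h | h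
          · exact Or.inr (Or.inr (Or.inl h))
          · exact Or.inr (Or.inr (Or.inr (Or.inl h)))
        by_cases b3 : g y z = 0
        · rcases key y z hyz b3 with h | h
          · exact Or.inr (Or.inr (Or.inr (Or.inr (Or.inl h))))
          · exact Or.inr (Or.inr (Or.inr (Or.inr (Or.inr h))))
        exfalso
        obtain ⟨a, b, c, hab, hbc, he⟩ := sorted_triple (h3 _ hm)
        rw [he] at hm
        have all1 : ∀ u ∈ ({x, y, z} : Finset (Fin n)), ∀ v ∈ ({x, y, z} : Finset (Fin n)),
            u ≠ v → g u v = 1 := by
          have e1 : ∀ u v : Fin n, ¬ g u v = 0 → g u v = 1 := fun u v h => by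
            have := hg u v
            omega
          intro u hu v hv huv
          simp only [mem_insert, mem_singleton] at hu hv
          rcases hu with rfl | rfl | rfl <;> rcases hv with rfl | rfl | rfl <;>
            first
              | exact absurd rfl huv
              | exact e1 _ _ b1
              | exact e1 _ _ b2
              | exact e1 _ _ b3
              | (rw [hgs]; exact e1 _ _ b1)
              | (rw [hgs]; exact e1 _ _ b2)
              | (rw [hgs]; exact e1 _ _ b3)
        rw [he] at all1
        have c1 := all1 a (by simp) b (by simp) hab.ne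
        have c2 := all1 a (by simp) c (by simp) (hab.trans hbc).ne
        have c3 := all1 b (by simp) c (by simp) hbc.ne
        obtain ⟨t, ht, ht'⟩ := (hr a b c hab hbc).1 hm
        have ht7 : t = 7 := by
          apply Fin.ext
          rw [ht]
          unfold typ
          rw [c1, c2, c3]
          rfl
        rw [ht7, r7] at ht'
        exact absurd ht' (by decide))
    linarith
  · have hE : Enc (mk r) g H := by
      intro a b c hab hbc
      rw [hr a b c hab hbc]
      have hl := typ_lt hg a b c
      have hm := mk_ee r ⟨typ g a b c, hl⟩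
      simp only at hm
      rw [hm]
      constructor
      · rintro ⟨t, ht, ht'⟩
        have : t = ⟨typ g a b c, hl⟩ := Fin.ext ht
        rw [← this, ht']
        rfl
      · intro h
        refine ⟨⟨typ g a b c, hl⟩, rfl, ?_⟩
        cases hb : r ⟨typ g a b c, hl⟩
        · rw [hb] at h
          exact absurd h (by decide)
        · rfl
    have hC : Cert5 (mk r) := by
      refine cert_all (mk r) ((mk_lt r).2 r7) ?_ ?_
      · have := mk_ee r 0
        rw [r0] at this
        exact this
      · rintro ⟨h1, h4⟩
        have e1 := mk_ee r 1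
        have e4 := mk_ee r 4
        apply h14
        constructor
        · cases hb : r 1
          · rw [hb] at e1
            rw [show ((1 : Fin 8) : ℕ) = 1 from rfl, h1] at e1
            exact absurd e1 (by decide)
          · rfl
        · cases hb : r 4
          · rw [hb] at e4
            rw [show ((4 : Fin 8) : ℕ) = 4 from rfl, h4] at e4
            exact absurd e4 (by decide)
          · rfl
    have h1 := bound5 hC hg hgs h3 hK hE
    have h4 := Pool.Agent.W38.KF.sq_le_pow (n := n)
    linarith

/-- the bound for every rule -/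
theorem rule5 {g : Fin n → Fin n → ℕ} (hg : ∀ x y, g x y ≤ 1) (hgs : ∀ x y, g x y = g y x)
    {H : Finset (Finset (Fin n))} (h3 : ∀ e ∈ H, e.card = 3) (hK : K5 H) (r : Fin 8 → Bool)
    (hr : ∀ a b c : Fin n, a < b → b < c → (({a, b, c} : Finset (Fin n)) ∈ H ↔
      ∃ t : Fin 8, (t : ℕ) = typ g a b c ∧ r t = true)) :
    (H.card : ℝ) ≤ (n : ℝ) ^ 3 / 8 + 200 * (n : ℝ) ^ (11 / 4 : ℝ) := by
  have hp : (0 : ℝ) ≤ (n : ℝ) ^ (11 / 4 : ℝ) := by positivity
  have mem0 : ∀ a b c : Fin n, a < b → b < c → g a b = 0 → g a c = 0 → g b c = 0 →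
      (({a, b, c} : Finset (Fin n)) ∈ H ↔ r 0 = true) := by
    intro a b c hab hbc h1 h2 h4
    rw [hr a b c hab hbc]
    have ht : typ g a b c = 0 := by unfold typ; rw [h1, h2, h4]
    rw [ht]
    exact ⟨fun ⟨t, h, h'⟩ => by rwa [show t = 0 from Fin.ext h] at h', fun h => ⟨0, rfl, h⟩⟩
  have mem7 : ∀ a b c : Fin n, a < b → b < c → g a b = 1 → g a c = 1 → g b c = 1 →
      (({a, b, c} : Finset (Fin n)) ∈ H ↔ r 7 = true) := by
    intro a b c hab hbc h1 h2 h4
    rw [hr a b c hab hbc]
    have ht : typ g a b c = 7 := by unfold typ; rw [h1, h2, h4]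
    rw [ht]
    exact ⟨fun ⟨t, h, h'⟩ => by rwa [show t = 7 from Fin.ext h] at h', fun h => ⟨7, rfl, h⟩⟩
  by_cases r0 : r 0 = true
  · by_cases r7 : r 7 = true
    · have hlt : n < 1024 := by
        by_contra hcon
        push Not at hcon
        have hk : ∀ T : Finset (Fin n), T.card = 5 →
            (∀ x ∈ T, ∀ y ∈ T, ∀ z ∈ T, x < y → y < z → ({x, y, z} : Finset (Fin n)) ∈ H) →
            False := by
          intro T hT hh
          obtain ⟨s, hs, hs3, hsH⟩ := hK T hT
          obtain ⟨x, y, z, hxy, hyz, rfl⟩ := sorted_triple hs3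
          exact hsH (hh x (hs (by simp)) y (hs (by simp)) z (hs (by simp)) hxy hyz)
        rcases Pool.Agent.W38.KF.ramsey (fun x y : Fin n => g x y = 1) (fun x y h => by
            show g y x = 1
            rw [hgs y x]; exact h) 10 5 5 rfl univ
            (by rw [Finset.card_univ, Fintype.card_fin]; exact hcon) with
            ⟨T, _, hT, hh⟩ | ⟨T, _, hT, hh⟩
        · refine hk T hT fun x hx y hy z hz hxy hyz => ?_
          rw [mem7 x y z hxy hyz (hh x hx y hy hxy.ne) (hh x hx z hz (hxy.trans hyz).ne)
            (hh y hy z hz hyz.ne)]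
          exact r7
        · have e0 : ∀ u v : Fin n, ¬ g u v = 1 → g u v = 0 := fun u v h => by
            have := hg u v
            omega
          refine hk T hT fun x hx y hy z hz hxy hyz => ?_
          rw [mem0 x y z hxy hyz (e0 _ _ (hh x hx y hy hxy.ne))
            (e0 _ _ (hh x hx z hz (hxy.trans hyz).ne)) (e0 _ _ (hh y hy z hz hyz.ne))]
          exact r0
      have h1 := Pool.Agent.W38.KF.trivial_bound h3
      have h1' : 6 * (H.card : ℝ) ≤ (n : ℝ) ^ 3 := by exact_mod_cast h1
      have h2 : (n : ℝ) ≤ 1024 := by exact_mod_cast hlt.le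
      have h4 := Pool.Agent.W38.KF.sq_le_pow (n := n)
      have h5 : (n : ℝ) ^ 3 ≤ 1024 * (n : ℝ) ^ 2 := by
        calc (n : ℝ) ^ 3 = (n : ℝ) * (n : ℝ) ^ 2 := by ring
          _ ≤ 1024 * (n : ℝ) ^ 2 := mul_le_mul_of_nonneg_right h2 (by positivity)
      linarith
    · have := half5 hg hgs h3 hK r hr r0 (by simpa using r7)
      linarith
  · by_cases r7 : r 7 = true
    · have := half5 (g := fun x y => 1 - g x y) (fun x y => by omega)
        (fun x y => by rw [hgs x y]) h3 hK (fun t => r (7 - t)) (by
          intro a b c hab hbc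
          rw [hr a b c hab hbc, typ_not hg]
          have hl := typ_lt hg a b c
          constructor
          · rintro ⟨t, ht, ht'⟩
            refine ⟨7 - t, ?_, ?_⟩
            · rw [← ht]
              clear ht ht'
              revert t
              decide
            · have e7 : (7 : Fin 8) - (7 - t) = t := by
                clear ht ht'
                revert t
                decide
              show r (7 - (7 - t)) = true
              rw [e7]
              exact ht'
          · rintro ⟨t, ht, ht'⟩
            refine ⟨7 - t, ?_, ht'⟩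
            have : ((7 - t : Fin 8) : ℕ) = 7 - (t : ℕ) := by
              clear ht ht'
              revert t
              decide
            rw [this, ht]
            omega)
        (by show r (7 - 0) = true; exact r7) (by show r (7 - 7) = false; simpa using r0)
      linarith
    · have := Pool.Agent.W38.KF.nomono h3 (fun x y : Fin n => decide (g x y = 1))
        (fun x y => by rw [hgs x y]) (by
          intro x y z hxy hxz hyz hm
          obtain ⟨a, b, c, hab, hbc, he⟩ := sorted_triple (h3 _ hm)
          rw [he] at hm
          have hva : a ∈ ({x, y, z} : Finset (Fin n)) := by rw [he]; simp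
          have hvb : b ∈ ({x, y, z} : Finset (Fin n)) := by rw [he]; simp
          have hvc : c ∈ ({x, y, z} : Finset (Fin n)) := by rw [he]; simp
          have hc3 : ∀ w : Bool, Pool.Agent.W38.KF.c3 (decide (g x y = 1)) (decide (g x z = 1))
              (decide (g y z = 1)) = (if w then 3 else 0) →
              decide (g x y = 1) = w ∧ decide (g x z = 1) = w ∧ decide (g y z = 1) = w := by
            intro w
            cases w <;> cases decide (g x y = 1) <;> cases decide (g x z = 1) <;>
              cases decide (g y z = 1) <;> simp [Pool.Agent.W38.KF.c3]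
          have hall : ∀ w : Bool, Pool.Agent.W38.KF.c3 (decide (g x y = 1)) (decide (g x z = 1))
              (decide (g y z = 1)) = (if w then 3 else 0) →
              ∀ u ∈ ({x, y, z} : Finset (Fin n)), ∀ v ∈ ({x, y, z} : Finset (Fin n)), u ≠ v →
              g u v = w.toNat := by
            intro w hw
            obtain ⟨w1, w2, w3⟩ := hc3 w hw
            have ev : ∀ u v : Fin n, decide (g u v = 1) = w → g u v = w.toNat := by
              intro u v h
              have := hg u v
              cases w
              · have h' : ¬ g u v = 1 := by simpa using h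
                show g u v = 0
                omega
              · show g u v = 1
                simpa using h
            intro u hu v hv huv
            simp only [mem_insert, mem_singleton] at hu hv
            rcases hu with rfl | rfl | rfl <;> rcases hv with rfl | rfl | rfl <;>
              first
                | exact absurd rfl huv
                | exact ev _ _ w1
                | exact ev _ _ w2
                | exact ev _ _ w3
                | (rw [hgs]; exact ev _ _ w1)
                | (rw [hgs]; exact ev _ _ w2)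
                | (rw [hgs]; exact ev _ _ w3)
          constructor
          · intro h0
            have A := hall false (by rw [h0]; rfl)
            exact r0 ((mem0 a b c hab hbc (A a hva b hvb hab.ne)
              (A a hva c hvc (hab.trans hbc).ne) (A b hvb c hvc hbc.ne)).1 hm)
          · intro h3'
            have A := hall true (by rw [h3']; rfl)
            exact r7 ((mem7 a b c hab hbc (A a hva b hvb hab.ne)
              (A a hva c hvc (hab.trans hbc).ne) (A b hvb c hvc hbc.ne)).1 hm))
      linarith

end

end Pool.Agent.TH865.OG
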