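import Pool.Agent.TH865.OG.Cb0
import Pool.Agent.TH865.OG.Cb1
import Pool.Agent.TH865.OG.Cb2
import Pool.Agent.TH865.OG.Cb3
import Pool.Agent.TH865.OG.Cb4
import Pool.Agent.TH865.OG.Cb5
import Pool.Agent.TH865.OG.Cb6
import Pool.Agent.TH865.OG.Cb7
import Pool.Agent.TH865.OG.Cb8
import Pool.Agent.TH865.OG.Cb9
import Pool.Agent.TH865.OG.Cb10
import Pool.Agent.TH865.OG.Cb11
import Pool.Agent.TH865.OG.Cb12
import Pool.Agent.TH865.OG.Cb13
import Pool.Agent.TH865.OG.Cb14
import Pool.Agent.TH865.OG.Cb15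
import Pool.Agent.TH865.OG.Cb16
import Pool.Agent.TH865.OG.Cb17
import Pool.Agent.TH865.OG.Cb18
import Pool.Agent.TH865.OG.Rule5

/-! `K_4^3`-free 3-graphs encoded by an ordered graph: all rules but 14. -/

set_option autoImplicit false
set_option maxRecDepth 100000
open Finset

namespace Pool.Agent.TH865.OG

/-- the 14 exceptional rules -/
def TL (r : Fin 8 → Bool) : Bool :=
  (r 4 && r 5 && r 6 && !r 0 && !r 3 && !r 7) || (r 1 && r 3 && r 5 && !r 0 && !r 6 && !r 7) ||
    (r 1 && r 2 && r 3 && !r 0 && !r 4 && !r 7) || (r 2 && r 4 && r 6 && !r 0 && !r 1 && !r 7)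

theorem TL_not : ∀ r : Fin 8 → Bool, TL (fun t => r (7 - t)) = TL r := by decide +kernel

theorem mem4 : ∀ r : Fin 8 → Bool, r 7 = false → TL r = false → mk r ∈
    ([0, 1, 2, 3, 4, 5, 6, 7, 8, 9, 10, 11, 12, 13, 15, 16, 17, 18, 19, 20, 21, 22, 23, 24, 25, 26, 27, 28, 29, 30, 31, 32, 33, 34, 35, 36, 37, 38, 39, 40, 41, 43, 44, 45, 47, 48, 49, 50, 51, 52, 53, 54, 55, 56, 57, 59, 60, 61, 63, 64, 65, 66, 67, 68, 69, 70, 71, 72, 73, 74, 75, 76, 77, 79, 80, 81, 82, 83, 85, 86, 87, 88, 89, 90, 91, 93, 94, 95, 96, 97, 98, 99, 100, 101, 102, 103, 104, 105, 106, 107, 108, 109, 111, 113, 115, 117, 119, 120, 121, 122, 123, 125, 126, 127] : List ℕ) := by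
  decide +kernel

theorem cert_all4 (M : ℕ) (h : M ∈ ([0, 1, 2, 3, 4, 5, 6, 7, 8, 9, 10, 11, 12, 13, 15, 16, 17, 18, 19, 20, 21, 22, 23, 24, 25, 26, 27, 28, 29, 30, 31, 32, 33, 34, 35, 36, 37, 38, 39, 40, 41, 43, 44, 45, 47, 48, 49, 50, 51, 52, 53, 54, 55, 56, 57, 59, 60, 61, 63, 64, 65, 66, 67, 68, 69, 70, 71, 72, 73, 74, 75, 76, 77, 79, 80, 81, 82, 83, 85, 86, 87, 88, 89, 90, 91, 93, 94, 95, 96, 97, 98, 99, 100, 101, 102, 103, 104, 105, 106, 107, 108, 109, 111, 113, 115, 117, 119, 120, 121, 122, 123, 125, 126, 127] : List ℕ)) :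
    Cert4 M := by
  simp only [List.mem_cons, List.not_mem_nil, or_false] at h
  rcases h with rfl | rfl | rfl | rfl | rfl | rfl | rfl | rfl | rfl | rfl | rfl | rfl | rfl | rfl | rfl | rfl | rfl | rfl | rfl | rfl | rfl | rfl | rfl | rfl | rfl | rfl | rfl | rfl | rfl | rfl | rfl | rfl | rfl | rfl | rfl | rfl | rfl | rfl | rfl | rfl | rfl | rfl | rfl | rfl | rfl | rfl | rfl | rfl | rfl | rfl | rfl | rfl | rfl | rfl | rfl | rfl | rfl | rfl | rfl | rfl | rfl | rfl | rfl | rfl | rfl | rfl | rfl | rfl | rfl | rfl | rfl | rfl | rfl | rfl | rfl | rfl | rfl | rfl | rfl | rfl | rfl | rfl | rfl | rfl | rfl | rfl | rfl | rfl | rfl | rfl | rfl | rfl | rfl | rfl | rfl | rfl | rfl | rfl | rfl | rfl | rfl | rfl | rfl | rfl | rfl | rfl | rfl | rfl | rfl | rfl | rfl | rfl | rfl | rfl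
  · exact cb_0
  · exact cb_1
  · exact cb_2
  · exact cb_3
  · exact cb_4
  · exact cb_5
  · exact cb_6
  · exact cb_7
  · exact cb_8
  · exact cb_9
  · exact cb_10
  · exact cb_11
  · exact cb_12
  · exact cb_13
  · exact cb_15
  · exact cb_16
  · exact cb_17
  · exact cb_18
  · exact cb_19
  · exact cb_20
  · exact cb_21
  · exact cb_22
  · exact cb_23
  · exact cb_24
  · exact cb_25
  · exact cb_26
  · exact cb_27
  · exact cb_28
  · exact cb_29
  · exact cb_30
  · exact cb_31
  · exact cb_32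
  · exact cb_33
  · exact cb_34
  · exact cb_35
  · exact cb_36
  · exact cb_37
  · exact cb_38
  · exact cb_39
  · exact cb_40
  · exact cb_41
  · exact cb_43
  · exact cb_44
  · exact cb_45
  · exact cb_47
  · exact cb_48
  · exact cb_49
  · exact cb_50
  · exact cb_51
  · exact cb_52
  · exact cb_53
  · exact cb_54
  · exact cb_55
  · exact cb_56
  · exact cb_57
  · exact cb_59
  · exact cb_60
  · exact cb_61
  · exact cb_63
  · exact cb_64
  · exact cb_65
  · exact cb_66
  · exact cb_67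
  · exact cb_68
  · exact cb_69
  · exact cb_70
  · exact cb_71
  · exact cb_72
  · exact cb_73
  · exact cb_74
  · exact cb_75
  · exact cb_76
  · exact cb_77
  · exact cb_79
  · exact cb_80
  · exact cb_81
  · exact cb_82
  · exact cb_83
  · exact cb_85
  · exact cb_86
  · exact cb_87
  · exact cb_88
  · exact cb_89
  · exact cb_90
  · exact cb_91
  · exact cb_93
  · exact cb_94
  · exact cb_95
  · exact cb_96
  · exact cb_97
  · exact cb_98
  · exact cb_99
  · exact cb_100
  · exact cb_101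
  · exact cb_102
  · exact cb_103
  · exact cb_104
  · exact cb_105
  · exact cb_106
  · exact cb_107
  · exact cb_108
  · exact cb_109
  · exact cb_111
  · exact cb_113
  · exact cb_115
  · exact cb_117
  · exact cb_119
  · exact cb_120
  · exact cb_121
  · exact cb_122
  · exact cb_123
  · exact cb_125
  · exact cb_126
  · exact cb_127

section
variable {n : ℕ}

theorem half4 {g : Fin n → Fin n → ℕ} (hg : ∀ x y, g x y ≤ 1) (hgs : ∀ x y, g x y = g y x)
    {H : Finset (Finset (Fin n))} (h3 : ∀ e ∈ H, e.card = 3) (hK : K4 H) (r : Fin 8 → Bool)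
    (hr : ∀ a b c : Fin n, a < b → b < c → (({a, b, c} : Finset (Fin n)) ∈ H ↔
      ∃ t : Fin 8, (t : ℕ) = typ g a b c ∧ r t = true))
    (r7 : r 7 = false) (hT : TL r = false) :
    (H.card : ℝ) ≤ 9 / 100 * (n : ℝ) ^ 3 + 150 * (n : ℝ) ^ 2 := by
  have hE : Enc (mk r) g H := by
    intro a b c hab hbc
    rw [hr a b c hab hbc]
    have hl := typ_lt hg a b c
    have hm := mk_ee r ⟨typ g a b c, hl⟩
    simp only at hm
    rw [hm]
    constructor
    · rintro ⟨t, ht, ht'⟩
      have : t = ⟨typ g a b c, hl⟩ := Fin.ext ht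
      rw [← this, ht']
      rfl
    · intro h
      refine ⟨⟨typ g a b c, hl⟩, rfl, ?_⟩
      cases hb : r ⟨typ g a b c, hl⟩
      · rw [hb] at h
        exact absurd h (by decide)
      · rfl
  exact bound4 (cert_all4 (mk r) (mem4 r r7 hT)) hg hgs h3 hK hE

/-- the bound for every rule which is not exceptional -/
theorem rule4 {g : Fin n → Fin n → ℕ} (hg : ∀ x y, g x y ≤ 1) (hgs : ∀ x y, g x y = g y x)
    {H : Finset (Finset (Fin n))} (h3 : ∀ e ∈ H, e.card = 3) (hK : K4 H) (r : Fin 8 → Bool)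
    (hr : ∀ a b c : Fin n, a < b → b < c → (({a, b, c} : Finset (Fin n)) ∈ H ↔
      ∃ t : Fin 8, (t : ℕ) = typ g a b c ∧ r t = true)) (hT : TL r = false) :
    (H.card : ℝ) ≤ 9 / 100 * (n : ℝ) ^ 3 + 150 * (n : ℝ) ^ 2 := by
  have p2 : (0 : ℝ) ≤ (n : ℝ) ^ 2 := by positivity
  have p3 : (0 : ℝ) ≤ (n : ℝ) ^ 3 := by positivity
  have mem0 : ∀ a b c : Fin n, a < b → b < c → g a b = 0 → g a c = 0 → g b c = 0 →
      (({a, b, c} : Finset (Fin n)) ∈ H ↔ r 0 = true) := by
    intro a b c hab hbc h1 h2 h4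
    rw [hr a b c hab hbc]
    have ht : typ g a b c = 0 := by unfold typ; rw [h1, h2, h4]
    rw [ht]
    exact ⟨fun ⟨t, h, h'⟩ => by rwa [show t = 0 from Fin.ext h] at h', fun h => ⟨0, rfl, h⟩⟩
  have mem7 : ∀ a b c : Fin n, a < b → b < c → g a b = 1 → g a c = 1 → g b c = 1 →
      (({a, b, c} : Finset (Fin n)) ∈ H ↔ r 7 = true) := by
    intro a b c hab hbc h1 h2 h4
    rw [hr a b c hab hbc]
    have ht : typ g a b c = 7 := by unfold typ; rw [h1, h2, h4]
    rw [ht]
    exact ⟨fun ⟨t, h, h'⟩ => by rwa [show t = 7 from Fin.ext h] at h', fun h => ⟨7, rfl, h⟩⟩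
  by_cases r7 : r 7 = true
  · by_cases r0 : r 0 = true
    · have hlt : n < 256 := by
        by_contra hcon
        push Not at hcon
        have hk : ∀ T : Finset (Fin n), T.card = 4 →
            (∀ x ∈ T, ∀ y ∈ T, ∀ z ∈ T, x < y → y < z → ({x, y, z} : Finset (Fin n)) ∈ H) →
            False := by
          intro T hT hh
          obtain ⟨s, hs, hs3, hsH⟩ := hK T hT
          obtain ⟨x, y, z, hxy, hyz, rfl⟩ := sorted_triple hs3
          exact hsH (hh x (hs (by simp)) y (hs (by simp)) z (hs (by simp)) hxy hyz)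
        rcases Pool.Agent.W38.KF.ramsey (fun x y : Fin n => g x y = 1) (fun x y h => by
            show g y x = 1
            rw [hgs y x]; exact h) 8 4 4 rfl univ
            (by rw [Finset.card_univ, Fintype.card_fin]; exact hcon) with
            ⟨T, _, hT, hh⟩ | ⟨T, _, hT, hh⟩
        · refine hk T hT fun x hx y hy z hz hxy hyz => ?_
          rw [mem7 x y z hxy hyz (hh x hx y hy hxy.ne) (hh x hx z hz (hxy.trans hyz).ne)
            (hh y hy z hz hyz.ne)]
          exact r7
        · have e0 : ∀ u v : Fin n, ¬ g u v = 1 → g u v = 0 := fun u v h => by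
            have := hg u v
            omega
          refine hk T hT fun x hx y hy z hz hxy hyz => ?_
          rw [mem0 x y z hxy hyz (e0 _ _ (hh x hx y hy hxy.ne))
            (e0 _ _ (hh x hx z hz (hxy.trans hyz).ne)) (e0 _ _ (hh y hy z hz hyz.ne))]
          exact r0
      have h1 := Pool.Agent.W38.KF.trivial_bound h3
      have h1' : 6 * (H.card : ℝ) ≤ (n : ℝ) ^ 3 := by exact_mod_cast h1
      have h2 : (n : ℝ) ≤ 256 := by exact_mod_cast hlt.le
      have h5 : (n : ℝ) ^ 3 ≤ 256 * (n : ℝ) ^ 2 := by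
        calc (n : ℝ) ^ 3 = (n : ℝ) * (n : ℝ) ^ 2 := by ring
          _ ≤ 256 * (n : ℝ) ^ 2 := mul_le_mul_of_nonneg_right h2 p2
      linarith
    · exact half4 (g := fun x y => 1 - g x y) (fun x y => by omega)
        (fun x y => by rw [hgs x y]) h3 hK (fun t => r (7 - t)) (by
          intro a b c hab hbc
          rw [hr a b c hab hbc, typ_not hg]
          have hl := typ_lt hg a b c
          constructor
          · rintro ⟨t, ht, ht'⟩
            refine ⟨7 - t, ?_, ?_⟩
            · rw [← ht]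
              clear ht ht'
              revert t
              decide
            · have e7 : (7 : Fin 8) - (7 - t) = t := by
                clear ht ht'
                revert t
                decide
              show r (7 - (7 - t)) = true
              rw [e7]
              exact ht'
          · rintro ⟨t, ht, ht'⟩
            refine ⟨7 - t, ?_, ht'⟩
            have : ((7 - t : Fin 8) : ℕ) = 7 - (t : ℕ) := by
              clear ht ht'
              revert t
              decide
            rw [this, ht]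
            omega)
        (by show r (7 - 7) = false; simpa using r0) (by rw [TL_not]; exact hT)
  · exact half4 hg hgs h3 hK r hr (by simpa using r7) hT

end

end Pool.Agent.TH865.OG
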